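import Pool.Agent.Q227.SW.Comb
import Pool.Agent.NPC.Sat2
import Pool.Agent.Q227.TF.Red
import Pool.Agent.H671R2.PolyAuto

/-!
# The reduction from 3-satisfiability
-/

set_option autoImplicit false

namespace Pool.Agent.Q227.SW

open Pool.Agent.NPC Pool.Agent.Q227.TF

/-- The literal number `o`. -/
def lit (φ : F3) (o : ℕ) : Bool × ℕ :=
  if o % 3 = 0 then (φ.getD (o / 3) ((false, 0), (false, 0), (false, 0))).1 else
  if o % 3 = 1 then (φ.getD (o / 3) ((false, 0), (false, 0), (false, 0))).2.1 else
    (φ.getD (o / 3) ((false, 0), (false, 0), (false, 0))).2.2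

/-- The literals `a` and `b` are in the same clause or they are complementary. -/
def adjO (φ : F3) (a b : ℕ) : Bool :=
  decide (a / 3 = b / 3) ||
    (decide ((lit φ a).2 = (lit φ b).2) && !decide ((lit φ a).1 = (lit φ b).1))

theorem adjO_symm (φ : F3) (a b : ℕ) : adjO φ a b = adjO φ b a := by
  unfold adjO
  rw [decide_eq_decide.2 (eq_comm (a := a / 3)), decide_eq_decide.2 (eq_comm (a := (lit φ a).2)),
    decide_eq_decide.2 (eq_comm (a := (lit φ a).1))]

theorem lit_clause {φ : F3} {c : ℕ} (hc : c < φ.length) :
    lit φ (3 * c) = φ[c].1 ∧ lit φ (3 * c + 1) = φ[c].2.1 ∧ lit φ (3 * c + 2) = φ[c].2.2 := by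
  unfold lit
  have e1 : 3 * c / 3 = c := by omega
  have e2 : (3 * c + 1) / 3 = c := by omega
  have e3 : (3 * c + 2) / 3 = c := by omega
  have f1 : 3 * c % 3 = 0 := by omega
  have f2 : (3 * c + 1) % 3 = 1 := by omega
  have f3 : (3 * c + 2) % 3 = 2 := by omega
  rw [e1, e2, e3, f1, f2, f3]
  simp [hc]

open Finset in
/-- Satisfiability in terms of vertex covers. -/
theorem sat_iff (φ : F3) : SAT3 φ ↔
    ∃ C : Finset ℕ, C ⊆ range (3 * φ.length) ∧ C.card ≤ 2 * φ.length ∧
      ∀ a < 3 * φ.length, ∀ b < 3 * φ.length, a ≠ b → adjO φ a b = true → a ∈ C ∨ b ∈ C := by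
  constructor
  · rintro ⟨t, ht⟩
    have hch : ∀ c, ∃ j, c < φ.length → j < 3 ∧ t (lit φ (3 * c + j)).2 = (lit φ (3 * c + j)).1 := by
      intro c
      by_cases hc : c < φ.length
      · obtain ⟨l1, l2, l3⟩ := lit_clause hc
        rcases ht _ (List.getElem_mem hc) with h | h | h
        · exact ⟨0, fun _ => ⟨by omega, by rw [add_zero, l1]; exact h⟩⟩
        · exact ⟨1, fun _ => ⟨by omega, by rw [l2]; exact h⟩⟩
        · exact ⟨2, fun _ => ⟨by omega, by rw [l3]; exact h⟩⟩
      · exact ⟨0, fun h => absurd h hc⟩
    choose j hj using hch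
    set I : Finset ℕ := (range φ.length).image fun c => 3 * c + j c with hI
    have hIs : I ⊆ range (3 * φ.length) := by
      intro x hx
      rw [hI, mem_image] at hx
      obtain ⟨c, hc, rfl⟩ := hx
      rw [mem_range] at hc ⊢
      have := (hj c hc).1
      omega
    have hIc : I.card = φ.length := by
      rw [hI, card_image_of_injOn, card_range]
      intro c hc d hd hcd
      rw [coe_range, Set.mem_Iio] at hc hd
      have h1 := (hj c hc).1
      have h2 := (hj d hd).1
      simp only at hcd
      omega
    refine ⟨range (3 * φ.length) \ I, sdiff_subset, ?_, ?_⟩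
    · rw [card_sdiff_of_subset hIs, card_range, hIc]
      omega
    · intro a ha b hb hab hadj
      by_contra hcon
      simp only [mem_sdiff, mem_range, ha, hb, true_and, not_or, not_not] at hcon
      obtain ⟨h1, h2⟩ := hcon
      rw [hI, mem_image] at h1 h2
      obtain ⟨c, hc, rfl⟩ := h1
      obtain ⟨d, hd, rfl⟩ := h2
      rw [mem_range] at hc hd
      obtain ⟨c1, c2⟩ := hj c hc
      obtain ⟨d1, d2⟩ := hj d hd
      unfold adjO at hadj
      simp only [Bool.or_eq_true, decide_eq_true_eq, Bool.and_eq_true, Bool.not_eq_true',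
        decide_eq_false_iff_not] at hadj
      rcases hadj with h | ⟨h, h'⟩
      · have : c = d := by omega
        subst this
        exact hab rfl
      · apply h'
        rw [← c2, ← d2, h]
  · rintro ⟨C, hC, hcard, hcov⟩
    set I : Finset ℕ := range (3 * φ.length) \ C with hI
    have hIcard : φ.length ≤ I.card := by
      rw [hI, card_sdiff_of_subset hC, card_range]
      omega
    have hImem : ∀ a, a ∈ I ↔ a < 3 * φ.length ∧ a ∉ C := by
      intro a
      rw [hI, mem_sdiff, mem_range]
    have hind : ∀ a ∈ I, ∀ b ∈ I, a ≠ b → adjO φ a b = false := by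
      intro a ha b hb hab
      rw [hImem] at ha hb
      by_contra h
      rw [Bool.not_eq_false] at h
      rcases hcov a ha.1 b hb.1 hab h with h | h
      · exact ha.2 h
      · exact hb.2 h
    have himg : I.image (fun a => a / 3) = range φ.length := by
      refine eq_of_subset_of_card_le ?_ ?_
      · intro x hx
        rw [mem_image] at hx
        obtain ⟨a, ha, rfl⟩ := hx
        rw [hImem] at ha
        rw [mem_range]
        omega
      · rw [card_range, card_image_of_injOn]
        · exact hIcard
        · intro a ha b hb hab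
          by_contra hne
          have h := hind a ha b hb hne
          unfold adjO at h
          simp only at hab
          simp [hab] at h
    classical
    refine ⟨fun x => decide (∃ a ∈ I, lit φ a = (true, x)), ?_⟩
    intro cl hcl
    obtain ⟨c, hc, rfl⟩ := List.mem_iff_getElem.1 hcl
    have hcm : c ∈ I.image (fun a => a / 3) := by
      rw [himg]
      exact mem_range.2 hc
    rw [mem_image] at hcm
    obtain ⟨a, ha, hac⟩ := hcm
    have key : decide (∃ a' ∈ I, lit φ a' = (true, (lit φ a).2)) = (lit φ a).1 := by
      cases h : (lit φ a).1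
      · refine decide_eq_false ?_
        rintro ⟨b, hb, hb2⟩
        have hne : a ≠ b := by
          rintro rfl
          rw [hb2] at h
          exact absurd h (by simp)
        have := hind a ha b hb hne
        unfold adjO at this
        rw [hb2] at this
        simp [h] at this
      · refine decide_eq_true ⟨a, ha, ?_⟩
        rw [← h]
    obtain ⟨l1, l2, l3⟩ := lit_clause hc
    have : a = 3 * c ∨ a = 3 * c + 1 ∨ a = 3 * c + 2 := by omega
    rcases this with rfl | rfl | rfl
    · left
      rw [l1] at key
      exact key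
    · right; left
      rw [l2] at key
      exact key
    · right; right
      rw [l3] at key
      exact key

/-! ### The instance -/

/-- The size of the bundles. -/
def kk (φ : F3) : ℕ := 18 * (φ.length * φ.length) + 8 * φ.length + 1

/-- The number of lines of each direction. -/
def pp (φ : F3) : ℕ := (kk φ + 1) * (3 * φ.length) + kk φ

/-- The wanted flips. -/
def ww (φ : F3) (o : Bool) (a j : ℕ) : Bool := wfl (kk φ) (adjO φ) o a j

/-- The number of neutral pairs, as the length of a list. -/
def nl (φ : F3) : ℕ := ((List.range (3 * φ.length)).flatMap fun a =>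
  (List.range (3 * φ.length)).filter fun b => neut (adjO φ) a b).length

/-- The number of slots, as a sum over lists. -/
def sls (φ : F3) : ℕ :=
  ((List.range (pp φ)).map fun a => ((List.range (pp φ)).map fun j =>
    2 + if ww φ true a j = true then 1 else 0).sum).sum +
  ((List.range (pp φ)).map fun a => ((List.range (pp φ)).map fun j =>
    2 + if ww φ false a j = true then 1 else 0).sum).sum

/-- The reduction. -/
def red (φ : F3) : List Seg × ℕ :=
  (drawing (pp φ) (ww φ), sls φ - (2 * nl φ + 8 * φ.length))

theorem sum_range_list (n : ℕ) (f : ℕ → ℕ) :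
    ((List.range n).map f).sum = ∑ a ∈ Finset.range n, f a := by
  induction n with
  | zero => rfl
  | succ n ih => rw [List.range_succ, List.map_append, List.sum_append, ih, Finset.sum_range_succ]; simp

theorem length_filter_range (n : ℕ) (f : ℕ → Bool) :
    ((List.range n).filter f).length = ∑ a ∈ Finset.range n, if f a = true then 1 else 0 := by
  induction n with
  | zero => rfl
  | succ n ih =>
    rw [List.range_succ, List.filter_append, List.length_append, ih, Finset.sum_range_succ]
    cases h : f n <;> simp [h]

theorem nl_eq (φ : F3) : nl φ = nn (adjO φ) (3 * φ.length) := by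
  unfold nl nn
  rw [List.length_flatMap, sum_range_list]
  exact Finset.sum_congr rfl fun a _ => length_filter_range _ _

theorem sls_eq (φ : F3) : sls φ = slots (pp φ) (ww φ) := by
  unfold sls slots
  rw [Fintype.sum_bool, sum_range_list, sum_range_list]
  simp only [sum_range_list]

theorem nl_le (φ : F3) : nl φ ≤ 9 * (φ.length * φ.length) := by
  rw [nl_eq]
  unfold nn
  calc _ ≤ ∑ a ∈ Finset.range (3 * φ.length), ∑ b ∈ Finset.range (3 * φ.length), 1 :=
        Finset.sum_le_sum fun a _ => Finset.sum_le_sum fun b _ => by split_ifs <;> simp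
    _ = 9 * (φ.length * φ.length) := by simp; ring

theorem slots_ge {p : ℕ} (hp : 1 ≤ p) (fl : Bool → ℕ → ℕ → Bool) : p ≤ slots p fl := by
  unfold slots
  rw [Fintype.sum_bool]
  refine le_trans ?_ (Nat.le_add_right _ _)
  calc p = ∑ a ∈ Finset.range p, 1 := by simp
    _ ≤ _ := Finset.sum_le_sum fun a ha => by
      refine le_trans ?_ (Finset.single_le_sum (f := fun j => 2 + if fl true a j = true then 1
        else 0) (fun _ _ => Nat.zero_le _) (Finset.mem_range.2 hp))
      omega

theorem red_iff (φ : F3) : SAT3 φ ↔ ManySwitches (red φ) := by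
  have h1 := nl_le φ
  have hp : 1 ≤ pp φ := by unfold pp kk; omega
  have hF : 2 * nl φ + 8 * φ.length ≤ slots (pp φ) (ww φ) := by
    refine le_trans ?_ (slots_ge hp _)
    unfold pp kk
    omega
  have h0 : ∀ o a, ww φ o a 0 = false := fun o a => wfl_zero _ _ o a
  unfold red
  rw [sls_eq, manySwitches_iff hp h0 hF, sat_iff]
  have h2 := comb (K := kk φ) (n := 3 * φ.length) (adj := adjO φ) (adjO_symm φ)
    (h := 2 * φ.length) (by rw [← nl_eq]; unfold kk; omega)
  rw [← h2, ← nl_eq, show 4 * (2 * φ.length) = 8 * φ.length by ring]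
  rfl

end Pool.Agent.Q227.SW
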