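import Pool.Agent.Q227.SW.Slots

/-!
# The largest number of switches for a given order of the lines
-/

set_option autoImplicit false

namespace Pool.Agent.Q227.SW

open Ed Finset

/-- The segment of the line `a` between the lines `j` and `j + 1` prefers them on different sides if
it contains a pendant edge, and on the same side otherwise. -/
def viol (fl : Bool → ℕ → ℕ → Bool) (ρ : Bool → ℕ → ℕ) (o : Bool) (a j : ℕ) : ℕ :=
  if (decide (ρ o a < ρ (!o) j) != decide (ρ o a < ρ (!o) (j + 1))) = fl o a (j + 1) then 0 else 1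

/-- The number of violated preferences. -/
def loss (p : ℕ) (fl : Bool → ℕ → ℕ → Bool) (ρ : Bool → ℕ → ℕ) : ℕ :=
  ∑ o : Bool, ∑ a ∈ range p, ∑ j ∈ range (p - 1), viol fl ρ o a j

/-- The number of slots. -/
def slots (p : ℕ) (fl : Bool → ℕ → ℕ → Bool) : ℕ :=
  ∑ o : Bool, ∑ a ∈ range p, ∑ j ∈ range p, (2 + if fl o a j = true then 1 else 0)

theorem regroup (n : ℕ) (t0 t1 t2 : ℕ → ℕ) :
    ∑ j ∈ range (n + 1), (t0 j + t1 j + t2 j) =
      (t0 0 + t1 0) + ∑ j ∈ range n, (t2 j + t0 (j + 1) + t1 (j + 1)) + t2 n := by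
  simp only [sum_add_distrib]
  rw [sum_range_succ' t0, sum_range_succ' t1, sum_range_succ t2]
  ring

theorem regroup' (n : ℕ) (f : ℕ → Bool) (h0 : f 0 = false) :
    ∑ j ∈ range (n + 1), (2 + if f j = true then 1 else 0) =
      2 + ∑ j ∈ range n, (2 + if f (j + 1) = true then 1 else 0) := by
  rw [sum_range_succ']
  simp [h0]
  ring

section upper

variable {p : ℕ} {fl : Bool → ℕ → ℕ → Bool}

open Classical in
/-- The number of switches in a slot. -/
noncomputable def sl (p : ℕ) (fl : Bool → ℕ → ℕ → Bool) (σ : Seg → ℕ) (o : Bool) (a j r : ℕ) : ℕ :=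
  if (r = 1 → fl o a j = true) ∧ Between σ (seg p (tri fl o a j r).1)
        (seg p (tri fl o a j r).2.1) (seg p (tri fl o a j r).2.2) then 1 else 0

theorem switches_eq' (σ : Seg → ℕ) : switches (drawing p fl) σ =
    ∑ o : Bool, ∑ a ∈ range p, ∑ j ∈ range p,
      (sl p fl σ o a j 0 + sl p fl σ o a j 1 + sl p fl σ o a j 2) := by
  rw [switches_eq]
  refine sum_congr rfl fun o _ => sum_congr rfl fun a _ => sum_congr rfl fun j _ => ?_
  rw [sum_range_succ, sum_range_succ, sum_range_succ, sum_range_zero, zero_add]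
  rfl

theorem line_ne_ax (o : Bool) (a b j : ℕ) : line o a ≠ ax o b j := by
  cases o <;> simp [line, ax]

theorem line_ne_pe (o : Bool) (a b j : ℕ) : line o a ≠ pe o b j := by
  cases o <;> simp [line, pe]

theorem line_ne_line (o : Bool) (a b : ℕ) : line o a ≠ line (!o) b := by
  cases o <;> simp [line]

theorem pres_line {o : Bool} {a : ℕ} (ha : a < p) : Pres p fl (line o a) := by
  cases o <;> exact ha

theorem pres_ax' {o : Bool} {a j : ℕ} (ha : a < p) (hj : j ≤ p) : Pres p fl (ax o a j) := by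
  cases o
  · exact Or.inr (Or.inl ⟨rfl, hj, ha⟩)
  · exact Or.inl ⟨rfl, ha, hj⟩

theorem pres_pe' {o : Bool} {a j : ℕ} (ha : a < p) (hj : j < p) (hf : fl o a j = true) :
    Pres p fl (pe o a j) := by
  cases o
  · exact Or.inr (Or.inr (Or.inr (Or.inl ⟨rfl, hj, ha, hf⟩)))
  · exact Or.inr (Or.inr (Or.inl ⟨rfl, ha, hj, hf⟩))

theorem sigma_ne {σ : Seg → ℕ} (hσ : Set.InjOn σ {e | e ∈ drawing p fl}) {x y : Ed}
    (hx : Pres p fl x) (hy : Pres p fl y) (hne : x ≠ y) : σ (seg p x) ≠ σ (seg p y) := by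
  intro h
  exact hne (seg_inj hx hy (hσ (mem_drawing.2 ⟨x, hx, rfl⟩) (mem_drawing.2 ⟨y, hy, rfl⟩) h))

/-- Betweenness of three levels, as a number. -/
def bt (x y z : ℕ) : ℕ := if y < x ∧ x < z ∨ z < x ∧ x < y then 1 else 0

theorem sl_zero (σ : Seg → ℕ) (o : Bool) (a j : ℕ) : sl p fl σ o a j 0 =
    bt (σ (seg p (line o a))) (σ (seg p (ax o a j)))
      (σ (seg p (if fl o a j = true then pe o a j else line (!o) j))) := by
  unfold sl tri bt Between
  simp

theorem sl_one (σ : Seg → ℕ) (o : Bool) (a j : ℕ) : sl p fl σ o a j 1 =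
    if fl o a j = true then bt (σ (seg p (line o a))) (σ (seg p (pe o a j)))
      (σ (seg p (line (!o) j))) else 0 := by
  unfold sl tri bt Between
  cases fl o a j <;> simp

theorem sl_two (σ : Seg → ℕ) (o : Bool) (a j : ℕ) : sl p fl σ o a j 2 =
    bt (σ (seg p (line o a))) (σ (seg p (line (!o) j)))
      (σ (seg p (ax o a (j + 1)))) := by
  unfold sl tri bt Between
  simp

theorem bt_le (x y z : ℕ) : bt x y z ≤ 1 := by
  unfold bt
  split_ifs <;> omega

theorem bt_up0 {x y z w : ℕ} (h1 : x ≠ y) (h2 : x ≠ z) (h3 : x ≠ w) :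
    bt x y w + bt x w z + 0 +
      (if (decide (x < y) != decide (x < z)) = false then 0 else 1) ≤ 2 + 0 := by
  unfold bt
  by_cases g1 : x < y <;> by_cases g2 : x < z <;> by_cases g3 : x < w <;>
    simp [g1, g2, g3] <;> split_ifs <;> omega

theorem bt_up1 {x y z w u : ℕ} (h1 : x ≠ y) (h2 : x ≠ z) (h3 : x ≠ w) (h4 : x ≠ u) :
    bt x y w + bt x w u + bt x u z +
      (if (decide (x < y) != decide (x < z)) = true then 0 else 1) ≤ 2 + 1 := by
  unfold bt
  by_cases g1 : x < y <;> by_cases g2 : x < z <;> by_cases g3 : x < w <;>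
    by_cases g4 : x < u <;> simp [g1, g2, g3, g4] <;> split_ifs <;> omega

theorem bt_lo0 {x y z w : ℕ} (h1 : x ≠ y) (h2 : x ≠ z) (h3 : x ≠ w)
    (k1 : x < w ↔ ¬ x < y) :
    2 + 0 ≤ bt x y w + bt x w z + 0 +
      (if (decide (x < y) != decide (x < z)) = false then 0 else 1) := by
  unfold bt
  by_cases g1 : x < y <;> by_cases g2 : x < z <;> by_cases g3 : x < w <;>
    simp [g1, g2, g3] at k1 ⊢ <;> split_ifs <;> omega

theorem bt_lo1 {x y z w u : ℕ} (h1 : x ≠ y) (h2 : x ≠ z) (h3 : x ≠ w) (h4 : x ≠ u)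
    (k1 : x < w ↔ ¬ x < y) (k2 : x < u ↔ x < y) :
    2 + 1 ≤ bt x y w + bt x w u + bt x u z +
      (if (decide (x < y) != decide (x < z)) = true then 0 else 1) := by
  unfold bt
  by_cases g1 : x < y <;> by_cases g2 : x < z <;> by_cases g3 : x < w <;>
    by_cases g4 : x < u <;> simp [g1, g2, g3, g4] at k1 k2 ⊢ <;> split_ifs <;> omega

theorem upper (hp : 1 ≤ p) (h0 : ∀ o a, fl o a 0 = false) {σ : Seg → ℕ}
    (hσ : Set.InjOn σ {e | e ∈ drawing p fl}) :
    switches (drawing p fl) σ + loss p fl (fun o a => σ (seg p (line o a))) ≤ slots p fl := by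
  rw [switches_eq']
  unfold loss slots
  rw [← sum_add_distrib]
  refine sum_le_sum fun o _ => ?_
  rw [← sum_add_distrib]
  refine sum_le_sum fun a ha => ?_
  rw [mem_range] at ha
  obtain ⟨n, rfl⟩ : ∃ n, p = n + 1 := ⟨p - 1, by omega⟩
  rw [regroup, regroup' _ _ (h0 o a), Nat.add_sub_cancel]
  have e1 : sl (n + 1) fl σ o a 0 0 + sl (n + 1) fl σ o a 0 1 ≤ 1 := by
    rw [sl_zero, sl_one, h0]
    have := bt_le (σ (seg (n + 1) (line o a))) (σ (seg (n + 1) (ax o a 0)))
      (σ (seg (n + 1) (line (!o) 0)))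
    simpa using this
  have e2 : sl (n + 1) fl σ o a n 2 ≤ 1 := by
    rw [sl_two]
    exact bt_le _ _ _
  have e3 : ∑ j ∈ range n, (sl (n + 1) fl σ o a j 2 + sl (n + 1) fl σ o a (j + 1) 0 +
      sl (n + 1) fl σ o a (j + 1) 1) + ∑ j ∈ range n,
        viol fl (fun o a => σ (seg (n + 1) (line o a))) o a j ≤
      ∑ j ∈ range n, (2 + if fl o a (j + 1) = true then 1 else 0) := by
    rw [← sum_add_distrib]
    refine sum_le_sum fun j hj => ?_
    rw [mem_range] at hj
    have k1 := sigma_ne hσ (pres_line (o := o) ha) (pres_line (o := !o) (a := j) (by omega))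
      (line_ne_line o a j)
    have k2 := sigma_ne hσ (pres_line (o := o) ha) (pres_line (o := !o) (a := j + 1) (by omega))
      (line_ne_line o a (j + 1))
    have k3 := sigma_ne hσ (pres_line (o := o) ha) (pres_ax' (o := o) (j := j + 1) ha (by omega))
      (line_ne_ax o a a (j + 1))
    rw [sl_two, sl_zero, sl_one]
    unfold viol
    cases hf : fl o a (j + 1)
    · simp only [Bool.false_eq_true, if_false]
      exact bt_up0 k1 k2 k3
    · have k4 := sigma_ne hσ (pres_line (o := o) ha) (pres_pe' (o := o) ha (j := j + 1)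
        (by omega) hf) (line_ne_pe o a a (j + 1))
      simp only [if_true]
      exact bt_up1 k1 k2 k3 k4
  omega

/-! ## The lower bound -/

/-- The level of an edge. -/
def lev (R : ℕ) (ρ : Bool → ℕ → ℕ) : Ed → ℕ
  | V a => ρ true a + 1
  | H a => ρ false a + 1
  | E k i j =>
    if k = 0 then (if ρ true i < ρ false (j - 1) then 0 else R) else
    if k = 1 then (if ρ false j < ρ true (i - 1) then 0 else R) else
    if k = 2 then (if ρ true i < ρ false (j - 1) then R else 0) else
    if k = 3 then (if ρ false j < ρ true (i - 1) then R else 0) else 0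

theorem lev_line (R : ℕ) (ρ : Bool → ℕ → ℕ) (o : Bool) (a : ℕ) :
    lev R ρ (line o a) = ρ o a + 1 := by cases o <;> rfl

theorem lev_ax (R : ℕ) (ρ : Bool → ℕ → ℕ) (o : Bool) (a j : ℕ) :
    lev R ρ (ax o a j) = if ρ o a < ρ (!o) (j - 1) then 0 else R := by
  cases o <;> simp [lev, ax]

theorem lev_pe (R : ℕ) (ρ : Bool → ℕ → ℕ) (o : Bool) (a j : ℕ) :
    lev R ρ (pe o a j) = if ρ o a < ρ (!o) (j - 1) then R else 0 := by
  cases o <;> simp [lev, pe]

theorem exists_order (hp : 1 ≤ p) (h0 : ∀ o a, fl o a 0 = false) (ρ : Bool → ℕ → ℕ)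
    (hρ : ∀ a b, a < p → b < p → ρ true a ≠ ρ false b) :
    ∃ σ : Seg → ℕ, Set.InjOn σ {e | e ∈ drawing p fl} ∧
      slots p fl ≤ switches (drawing p fl) σ + loss p fl ρ := by
  classical
  obtain ⟨N, hN⟩ : ∃ N, N = (codes p fl).length := ⟨_, rfl⟩
  obtain ⟨R, hR⟩ : ∃ R, ∀ o a, a < p → ρ o a + 1 < R := by
    refine ⟨(∑ o : Bool, ∑ a ∈ range p, ρ o a) + 2, fun o a ha => ?_⟩
    have h1 : ρ o a ≤ ∑ a ∈ range p, ρ o a :=
      single_le_sum (f := fun a => ρ o a) (fun _ _ => Nat.zero_le _) (mem_range.2 ha)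
    have h2 : ∑ a ∈ range p, ρ o a ≤ ∑ o : Bool, ∑ a ∈ range p, ρ o a :=
      single_le_sum (f := fun o => ∑ a ∈ range p, ρ o a) (fun _ _ => Nat.zero_le _) (mem_univ o)
    omega
  set τ : Ed → ℕ := fun x => lev R ρ x * N + (codes p fl).idxOf x with hτ
  set σ : Seg → ℕ := fun e => if h : ∃ x, Pres p fl x ∧ seg p x = e then τ h.choose else 0
    with hσ
  have hστ : ∀ x, Pres p fl x → σ (seg p x) = τ x := by
    intro x hx
    have h : ∃ y, Pres p fl y ∧ seg p y = seg p x := ⟨x, hx, rfl⟩
    rw [hσ]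
    simp only [dif_pos h]
    rw [seg_inj h.choose_spec.1 hx h.choose_spec.2]
  have hidx : ∀ x, Pres p fl x → (codes p fl).idxOf x < N := by
    intro x hx
    rw [hN]
    exact List.idxOf_lt_length_of_mem (mem_codes.2 hx)
  have hlt : ∀ x y, Pres p fl x → lev R ρ x < lev R ρ y → τ x < τ y := by
    intro x y hx h
    have h1 := hidx x hx
    have h2 : (lev R ρ x + 1) * N ≤ lev R ρ y * N := Nat.mul_le_mul_right N h
    rw [add_mul, one_mul] at h2
    simp only [hτ]
    omega
  refine ⟨σ, ?_, ?_⟩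
  · intro e he f hf hef
    obtain ⟨x, hx, rfl⟩ := mem_drawing.1 he
    obtain ⟨y, hy, rfl⟩ := mem_drawing.1 hf
    rw [hστ x hx, hστ y hy] at hef
    rcases lt_trichotomy (lev R ρ x) (lev R ρ y) with h | h | h
    · exact absurd hef (hlt x y hx h).ne
    · simp only [hτ, h] at hef
      have : (codes p fl).idxOf x = (codes p fl).idxOf y := by omega
      rw [(List.idxOf_inj (mem_codes.2 hx)).1 this]
    · exact absurd hef (hlt y x hy h).ne'
  · -- comparisons
    have c1 : ∀ o a b, a < p → b < p →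
        (τ (line o a) < τ (line (!o) b) ↔ ρ o a < ρ (!o) b) ∧ τ (line o a) ≠ τ (line (!o) b) := by
      intro o a b ha hb
      have hne : ρ o a ≠ ρ (!o) b := by
        cases o
        · exact (hρ b a hb ha).symm
        · exact hρ a b ha hb
      rcases lt_or_gt_of_ne hne with h | h
      · have := hlt (line o a) (line (!o) b) (pres_line ha) (by rw [lev_line, lev_line]; omega)
        exact ⟨⟨fun _ => h, fun _ => this⟩, this.ne⟩
      · have := hlt (line (!o) b) (line o a) (pres_line hb) (by rw [lev_line, lev_line]; omega)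
        exact ⟨⟨fun h' => absurd h' (by omega), fun h' => by omega⟩, this.ne'⟩
    have c2 : ∀ o a j, a < p → j ≤ p →
        (τ (line o a) < τ (ax o a j) ↔ ¬ ρ o a < ρ (!o) (j - 1)) ∧
          τ (line o a) ≠ τ (ax o a j) := by
      intro o a j ha hj
      by_cases h : ρ o a < ρ (!o) (j - 1)
      · have := hlt (ax o a j) (line o a) (pres_ax' ha hj) (by
          rw [lev_line, lev_ax, if_pos h]; omega)
        exact ⟨⟨fun h' => by omega, fun h' => absurd h h'⟩, this.ne'⟩
      · have := hlt (line o a) (ax o a j) (pres_line ha) (by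
          rw [lev_line, lev_ax, if_neg h]; exact hR o a ha)
        exact ⟨⟨fun _ => h, fun _ => this⟩, this.ne⟩
    have c3 : ∀ o a j, a < p → j < p → fl o a j = true →
        (τ (line o a) < τ (pe o a j) ↔ ρ o a < ρ (!o) (j - 1)) ∧
          τ (line o a) ≠ τ (pe o a j) := by
      intro o a j ha hj hf
      by_cases h : ρ o a < ρ (!o) (j - 1)
      · have := hlt (line o a) (pe o a j) (pres_line ha) (by
          rw [lev_line, lev_pe, if_pos h]; exact hR o a ha)
        exact ⟨⟨fun _ => h, fun _ => this⟩, this.ne⟩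
      · have := hlt (pe o a j) (line o a) (pres_pe' ha hj hf) (by
          rw [lev_line, lev_pe, if_neg h]; omega)
        exact ⟨⟨fun h' => by omega, fun h' => absurd h' h⟩, this.ne'⟩
    rw [switches_eq']
    unfold loss slots
    rw [← sum_add_distrib]
    refine sum_le_sum fun o _ => ?_
    rw [← sum_add_distrib]
    refine sum_le_sum fun a ha => ?_
    rw [mem_range] at ha
    obtain ⟨n, rfl⟩ : ∃ n, p = n + 1 := ⟨p - 1, by omega⟩
    rw [regroup, regroup' _ _ (h0 o a), Nat.add_sub_cancel]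
    have e1 : 1 ≤ sl (n + 1) fl σ o a 0 0 := by
      rw [sl_zero, h0]
      have k1 := c1 o a 0 ha (by omega)
      have k2 := c2 o a 0 ha (by omega)
      simp only [Bool.false_eq_true, if_false]
      unfold bt
      rw [hστ _ (pres_line ha), hστ _ (pres_ax' ha (by omega)), hστ _ (pres_line (by omega))]
      rw [if_pos]
      simp only [Nat.zero_sub] at k2
      generalize τ (line o a) = x at *
      generalize τ (line (!o) 0) = y at *
      generalize τ (ax o a 0) = z at *
      omega
    have e2 : 1 ≤ sl (n + 1) fl σ o a n 2 := by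
      rw [sl_two]
      have k1 := c1 o a n ha (by omega)
      have k2 := c2 o a (n + 1) ha (by omega)
      unfold bt
      rw [hστ _ (pres_line ha), hστ _ (pres_ax' ha (by omega)), hστ _ (pres_line (by omega))]
      rw [if_pos]
      simp only [Nat.add_sub_cancel] at k2
      generalize τ (line o a) = x at *
      generalize τ (line (!o) n) = y at *
      generalize τ (ax o a (n + 1)) = z at *
      omega
    have e3 : ∑ j ∈ range n, (2 + if fl o a (j + 1) = true then 1 else 0) ≤
        ∑ j ∈ range n, (sl (n + 1) fl σ o a j 2 + sl (n + 1) fl σ o a (j + 1) 0 +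
        sl (n + 1) fl σ o a (j + 1) 1) + ∑ j ∈ range n, viol fl ρ o a j := by
      rw [← sum_add_distrib]
      refine sum_le_sum fun j hj => ?_
      rw [mem_range] at hj
      have k1 := c1 o a j ha (by omega)
      have k2 := c1 o a (j + 1) ha (by omega)
      have k3 := c2 o a (j + 1) ha (by omega)
      rw [sl_two, sl_zero, sl_one]
      unfold viol
      rw [hστ _ (pres_line ha), hστ _ (pres_line (a := j) (by omega)),
        hστ _ (pres_ax' ha (by omega))]
      simp only [Nat.add_sub_cancel] at k3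
      have e4 : decide (ρ o a < ρ (!o) j) = decide (τ (line o a) < τ (line (!o) j)) :=
        decide_eq_decide.2 k1.1.symm
      have e5 : decide (ρ o a < ρ (!o) (j + 1)) = decide (τ (line o a) < τ (line (!o) (j + 1))) :=
        decide_eq_decide.2 k2.1.symm
      rw [e4, e5]
      cases hf : fl o a (j + 1)
      · simp only [Bool.false_eq_true, if_false]
        rw [hστ _ (pres_line (a := j + 1) (by omega))]
        exact bt_lo0 k1.2 k2.2 k3.2 (k3.1.trans (not_congr k1.1.symm))
      · have k4 := c3 o a (j + 1) ha (by omega) hf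
        simp only [if_true]
        rw [hστ _ (pres_line (a := j + 1) (by omega)), hστ _ (pres_pe' ha (by omega) hf)]
        simp only [Nat.add_sub_cancel] at k4
        exact bt_lo1 k1.2 k2.2 k3.2 k4.2 (k3.1.trans (not_congr k1.1.symm)) (k4.1.trans k1.1.symm)
    omega

/-- The decision problem in terms of the order of the lines. -/
theorem manySwitches_iff (hp : 1 ≤ p) (h0 : ∀ o a, fl o a 0 = false) {F : ℕ}
    (hF : F ≤ slots p fl) : ManySwitches (drawing p fl, slots p fl - F) ↔
      ∃ ρ : Bool → ℕ → ℕ, (∀ a b, a < p → b < p → ρ true a ≠ ρ false b) ∧ loss p fl ρ ≤ F := by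
  constructor
  · rintro ⟨σ, hσ, h⟩
    refine ⟨fun o a => σ (seg p (line o a)), ?_, ?_⟩
    · intro a b ha hb
      exact sigma_ne hσ (pres_line (o := true) ha) (pres_line (o := false) hb) (by simp [line])
    · have h1 := upper hp h0 hσ
      simp only at h h1
      omega
  · rintro ⟨ρ, hρ, h⟩
    obtain ⟨σ, hσ, h1⟩ := exists_order hp h0 ρ hρ
    exact ⟨σ, hσ, by simp only; omega⟩

end upper

end Pool.Agent.Q227.SW
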