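import Mathlib

/-!
# Flips along one line
-/

set_option autoImplicit false

namespace Pool.Agent.Q227.SW

open Finset

/-- The wanted flips before the index `j` on a line: `g y` flips before and after the main line
number `y`, whose index is `(K + 1) * y + K`. -/
def want (K : ℕ) (g : ℕ → Bool) (j : ℕ) : Bool :=
  decide (1 ≤ j) && ((decide (j % (K + 1) = K) && g (j / (K + 1))) ||
    (decide (j % (K + 1) = 0) && g (j / (K + 1) - 1)))

theorem want_zero (K : ℕ) (g : ℕ → Bool) : want K g 0 = false := by
  simp [want]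

theorem divmod {K y r : ℕ} (hr : r < K + 1) :
    ((K + 1) * y + r) / (K + 1) = y ∧ ((K + 1) * y + r) % (K + 1) = r := by
  constructor
  · rw [Nat.mul_add_div (Nat.succ_pos K), Nat.div_eq_of_lt hr, add_zero]
  · rw [Nat.mul_add_mod, Nat.mod_eq_of_lt hr]

theorem want_main {K : ℕ} (hK : 1 ≤ K) (g : ℕ → Bool) (y : ℕ) :
    want K g ((K + 1) * y + K) = g y := by
  have h := divmod (K := K) (y := y) (r := K) (by omega)
  unfold want
  rw [h.1, h.2]
  have h1 : 1 ≤ (K + 1) * y + K := by omega
  simp [h1, show K ≠ 0 by omega]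

theorem want_top {K : ℕ} (g : ℕ → Bool) {y r : ℕ} (h0 : 0 < r) (h1 : r < K) :
    want K g ((K + 1) * y + r) = false := by
  have h := divmod (K := K) (y := y) (r := r) (by omega)
  unfold want
  rw [h.1, h.2]
  simp [show r ≠ K by omega, show r ≠ 0 by omega]

theorem want_next {K : ℕ} (hK : 1 ≤ K) (g : ℕ → Bool) (y : ℕ) :
    want K g ((K + 1) * y + K + 1) = g y := by
  have e : (K + 1) * y + K + 1 = (K + 1) * (y + 1) + 0 := by ring
  have h := divmod (K := K) (y := y + 1) (r := 0) (by omega)
  have h1 : 1 ≤ (K + 1) * (y + 1) := Nat.mul_pos (Nat.succ_pos K) (Nat.succ_pos y)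
  unfold want
  rw [e, h.1, h.2]
  simp [show 0 ≠ K by omega, h1]

theorem const_on {u : ℕ → Bool} {i k : ℕ} (h : ∀ j, i ≤ j → j < k → u j = u (j + 1)) :
    ∀ j, i ≤ j → j ≤ k → u j = u i := by
  intro j hij
  induction j, hij using Nat.le_induction with
  | base => intro _; rfl
  | succ j hij ih =>
    intro hjk
    rw [← h j hij (by omega), ih (by omega)]

theorem seg_parity {u w : ℕ → Bool} {i k q : ℕ}
    (h : ∀ j, i ≤ j → j < k → (u j != u (j + 1)) = w (j + 1)) (hiq : i < q) (hqk : q ≤ k)
    (hw : ∀ j, i < j → j ≤ k → j ≠ q → w j = false) : (u i != u k) = w q := by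
  have h1 : u (q - 1) = u i := by
    refine const_on (k := q - 1) (fun j hij hj => ?_) (q - 1) (by omega) le_rfl
    have := h j hij (by omega)
    rw [hw (j + 1) (by omega) (by omega) (by omega)] at this
    simpa using this
  have h2 : u k = u q := by
    refine const_on (k := k) (fun j hij hj => ?_) k hqk le_rfl
    have := h j (by omega) (by omega)
    rw [hw (j + 1) (by omega) (by omega) (by omega)] at this
    simpa using this
  have h3 := h (q - 1) (by omega) (by omega)
  rw [Nat.sub_add_cancel (by omega : 1 ≤ q)] at h3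
  rw [h2, ← h1]
  exact h3

/-- The number of violated preferences on a line. -/
def vs (K n : ℕ) (w u : ℕ → Bool) : ℕ :=
  ∑ j ∈ range ((K + 1) * n + K - 1), (if (u j != u (j + 1)) = w (j + 1) then 0 else 1)

theorem sum_consec (f : ℕ → ℕ) (s : ℕ → ℕ) (n : ℕ) (hs : ∀ y < n, s y ≤ s (y + 1)) :
    s 0 ≤ s n ∧ ∑ y ∈ range n, ∑ j ∈ Ico (s y) (s (y + 1)), f j = ∑ j ∈ Ico (s 0) (s n), f j := by
  induction n with
  | zero => simp
  | succ n ih =>
    obtain ⟨h1, h2⟩ := ih fun y hy => hs y (by omega)
    refine ⟨h1.trans (hs n (by omega)), ?_⟩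
    rw [sum_range_succ, h2, sum_Ico_consecutive f h1 (hs n (by omega))]

theorem vs_lower {K n : ℕ} (hK : 1 ≤ K) {g u : ℕ → Bool} {c : Bool} {s : ℕ → ℕ}
    (hs1 : ∀ y ≤ n, (K + 1) * y ≤ s y) (hs2 : ∀ y ≤ n, s y < (K + 1) * y + K)
    (hu : ∀ y ≤ n, u (s y) = c) :
    ∑ y ∈ range n, (if (c != u ((K + 1) * y + K)) = g y then 0 else 2) ≤ vs K n (want K g) u := by
  have hstep : ∀ y < n, (K + 1) * y + K + 1 ≤ s (y + 1) := by
    intro y hy
    have := hs1 (y + 1) (by omega)
    rw [mul_add, mul_one] at this
    omega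
  have hmono : ∀ y < n, s y ≤ s (y + 1) := by
    intro y hy
    have h1 := hs2 y (by omega)
    have h2 := hstep y hy
    omega
  set f : ℕ → ℕ := fun j => if (u j != u (j + 1)) = want K g (j + 1) then 0 else 1 with hf
  have hf0 : ∀ j, f j = 0 → (u j != u (j + 1)) = want K g (j + 1) := by
    intro j h
    by_contra h'
    simp only [hf] at h
    rw [if_neg h'] at h
    exact absurd h one_ne_zero
  obtain ⟨-, hsum⟩ := sum_consec f s n hmono
  have hsub : ∑ j ∈ Ico (s 0) (s n), f j ≤ vs K n (want K g) u := by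
    refine sum_le_sum_of_subset fun j hj => ?_
    rw [mem_Ico] at hj
    rw [mem_range]
    have := hs2 n le_rfl
    omega
  refine le_trans ?_ hsub
  rw [← hsum]
  refine sum_le_sum fun y hy => ?_
  rw [mem_range] at hy
  by_cases hg : (c != u ((K + 1) * y + K)) = g y
  · rw [if_pos hg]
    exact Nat.zero_le _
  rw [if_neg hg]
  have a1 := hs1 y (by omega)
  have a2 := hs2 y (by omega)
  have a3 := hstep y hy
  have a4 := hs2 (y + 1) (by omega)
  have a5 : (K + 1) * (y + 1) = (K + 1) * y + K + 1 := by ring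
  rw [← sum_Ico_consecutive f (show s y ≤ (K + 1) * y + K by omega)
    (show (K + 1) * y + K ≤ s (y + 1) by omega)]
  have b1 : ∑ j ∈ Ico (s y) ((K + 1) * y + K), f j ≠ 0 := by
    intro h0
    rw [sum_eq_zero_iff] at h0
    apply hg
    have := seg_parity (u := u) (w := want K g) (i := s y) (k := (K + 1) * y + K)
      (q := (K + 1) * y + K) (fun j h1 h2 => hf0 j (h0 j (mem_Ico.2 ⟨h1, h2⟩))) (by omega) le_rfl
      (fun j h1 h2 h3 => by
        obtain ⟨r, rfl⟩ : ∃ r, j = (K + 1) * y + r := ⟨j - (K + 1) * y, by omega⟩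
        exact want_top g (by omega) (by omega))
    rw [hu y (by omega), want_main hK] at this
    exact this
  have b2 : ∑ j ∈ Ico ((K + 1) * y + K) (s (y + 1)), f j ≠ 0 := by
    intro h0
    rw [sum_eq_zero_iff] at h0
    apply hg
    have := seg_parity (u := u) (w := want K g) (i := (K + 1) * y + K) (k := s (y + 1))
      (q := (K + 1) * y + K + 1) (fun j h1 h2 => hf0 j (h0 j (mem_Ico.2 ⟨h1, h2⟩))) (by omega)
      (by omega)
      (fun j h1 h2 h3 => by
        obtain ⟨r, rfl⟩ : ∃ r, j = (K + 1) * (y + 1) + r := ⟨j - (K + 1) * (y + 1), by omega⟩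
        exact want_top g (by omega) (by omega))
    rw [hu (y + 1) (by omega), want_next hK] at this
    rw [← this]
    cases c <;> cases u ((K + 1) * y + K) <;> rfl
  omega

theorem sum_blocks (f : ℕ → ℕ) (n K : ℕ) : ∑ a ∈ range ((K + 1) * n + K), f a =
    ∑ y ∈ range n, (∑ r ∈ range K, f ((K + 1) * y + r) + f ((K + 1) * y + K)) +
      ∑ r ∈ range K, f ((K + 1) * n + r) := by
  induction n with
  | zero => simp
  | succ n ih =>
    have e : (K + 1) * (n + 1) + K = ((K + 1) * n + K) + 1 + K := by ring
    rw [e, sum_range_add, sum_range_succ, ih, sum_range_succ]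
    have e2 : (K + 1) * n + K + 1 = (K + 1) * (n + 1) := by ring
    rw [e2]
    ring

theorem vs_upper {K n : ℕ} (hK : 1 ≤ K) {g u : ℕ → Bool} {c : Bool}
    (hu : ∀ y r, r < K → u ((K + 1) * y + r) = c) :
    vs K n (want K g) u = ∑ y ∈ range n, (if (c != u ((K + 1) * y + K)) = g y then 0 else 2) := by
  unfold vs
  obtain ⟨L, rfl⟩ : ∃ L, K = L + 1 := ⟨K - 1, by omega⟩
  have e : (L + 1 + 1) * n + (L + 1) - 1 = (L + 1 + 1) * n + L := by omega
  rw [e]
  have hsmall : ∀ y r, r < L → (if (u ((L + 1 + 1) * y + r) != u ((L + 1 + 1) * y + r + 1)) =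
      want (L + 1) g ((L + 1 + 1) * y + r + 1) then 0 else 1) = 0 := by
    intro y r hr
    rw [if_pos]
    rw [hu y r (by omega), show (L + 1 + 1) * y + r + 1 = (L + 1 + 1) * y + (r + 1) by ring,
      hu y (r + 1) (by omega), want_top g (by omega) (by omega)]
    simp
  have hblock : ∀ n, ∑ j ∈ range ((L + 1 + 1) * n + L), (if (u j != u (j + 1)) =
      want (L + 1) g (j + 1) then 0 else 1) =
        ∑ y ∈ range n, (if (c != u ((L + 1 + 1) * y + (L + 1))) = g y then 0 else 2) := by
    intro n
    induction n with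
    | zero =>
      simp only [mul_zero, zero_add, range_zero, sum_empty]
      refine sum_eq_zero fun r hr => ?_
      have := hsmall 0 r (mem_range.1 hr)
      simpa using this
    | succ n ih =>
      have e1 : (L + 1 + 1) * (n + 1) + L = ((L + 1 + 1) * n + L) + 1 + 1 + L := by ring
      rw [e1, sum_range_add, sum_range_succ, sum_range_succ, ih, sum_range_succ]
      have e2 : ∑ x ∈ range L, (if (u ((L + 1 + 1) * n + L + 1 + 1 + x) !=
          u ((L + 1 + 1) * n + L + 1 + 1 + x + 1)) =
            want (L + 1) g ((L + 1 + 1) * n + L + 1 + 1 + x + 1) then 0 else 1) = 0 := by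
        refine sum_eq_zero fun r hr => ?_
        have := hsmall (n + 1) r (mem_range.1 hr)
        rw [show (L + 1 + 1) * n + L + 1 + 1 + r = (L + 1 + 1) * (n + 1) + r by ring]
        exact this
      rw [e2, add_zero, add_assoc]
      congr 1
      have w1 := want_main (K := L + 1) (by omega) g n
      have w2 := want_next (K := L + 1) (by omega) g n
      have u1 := hu n L (by omega)
      have u2 := hu (n + 1) 0 (by omega)
      rw [show (L + 1 + 1) * (n + 1) + 0 = (L + 1 + 1) * n + L + 1 + 1 by ring] at u2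
      rw [show (L + 1 + 1) * n + (L + 1) + 1 = (L + 1 + 1) * n + L + 1 + 1 by ring] at w2
      rw [show (L + 1 + 1) * n + (L + 1) = (L + 1 + 1) * n + L + 1 by ring] at w1 ⊢
      rw [w1, w2, u1, u2]
      cases c <;> cases u ((L + 1 + 1) * n + L + 1) <;> cases g n <;> rfl
  exact hblock n

theorem clean_h {K n : ℕ} (hK : 1 ≤ K) {u : ℕ → Bool}
    (h : vs K n (want K fun _ => true) u = 0) :
    ∀ i < (K + 1) * n + K, u i = (u 0 != decide (i % (K + 1) = K)) := by
  unfold vs at h
  rw [sum_eq_zero_iff] at h
  intro i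
  induction i with
  | zero =>
    intro _
    rw [Nat.zero_mod, decide_eq_false (by omega)]
    simp
  | succ i ih =>
    intro hi
    have h1 := h i (mem_range.2 (by omega))
    have h2 : (u i != u (i + 1)) = want K (fun _ => true) (i + 1) := by
      by_contra h'
      rw [if_neg h'] at h1
      exact absurd h1 one_ne_zero
    have h3 := ih (by omega)
    have h4 : want K (fun _ => true) (i + 1) =
        (decide (i % (K + 1) = K) != decide ((i + 1) % (K + 1) = K)) := by
      unfold want
      have hm : (i + 1) % (K + 1) = if i % (K + 1) = K then 0 else i % (K + 1) + 1 := by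
        have hlt : i % (K + 1) < K + 1 := Nat.mod_lt i (Nat.succ_pos K)
        split_ifs with hc
        · rw [Nat.add_mod, hc]
          rcases Nat.eq_zero_or_pos K with h0 | h0
          · omega
          · rw [Nat.mod_eq_of_lt (show 1 < K + 1 by omega), Nat.mod_self]
        · rw [Nat.add_mod, Nat.mod_eq_of_lt (show 1 < K + 1 by omega), Nat.mod_eq_of_lt]
          omega
      rw [hm]
      by_cases hc : i % (K + 1) = K
      · rw [if_pos hc, decide_eq_true hc]
        simp [show 0 ≠ K by omega]
      · rw [if_neg hc, decide_eq_false hc]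
        simp
    rw [h4] at h2
    rw [h3] at h2
    generalize u 0 = x at *
    generalize u (i + 1) = y at *
    generalize decide (i % (K + 1) = K) = z at *
    generalize decide ((i + 1) % (K + 1) = K) = w at *
    revert h2
    cases x <;> cases y <;> cases z <;> cases w <;> decide

theorem clean_v {K n : ℕ} {u : ℕ → Bool} (h : vs K n (fun _ => false) u = 0) :
    ∀ i < (K + 1) * n + K, u i = u 0 := by
  unfold vs at h
  rw [sum_eq_zero_iff] at h
  intro i
  induction i with
  | zero => intro _; rfl
  | succ i ih =>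
    intro hi
    have h1 := h i (mem_range.2 (by omega))
    have h2 : (u i != u (i + 1)) = false := by
      by_contra h'
      rw [if_neg h'] at h1
      exact absurd h1 one_ne_zero
    rw [← ih (by omega)]
    generalize u i = x at *
    generalize u (i + 1) = y at *
    revert h2
    cases x <;> cases y <;> decide

end Pool.Agent.Q227.SW
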