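import Pool.Agent.Q227.SW.Bounds
import Pool.Agent.Q227.SW.Line

/-!
# The optimal orders of the lines and vertex covers
-/

set_option autoImplicit false

namespace Pool.Agent.Q227.SW

open Finset

/-- Preferences on the main vertical lines. -/
def gv (a b : ℕ) : Bool := decide (a = b)

/-- Preferences on the main horizontal lines. -/
def gh (adj : ℕ → ℕ → Bool) (a b : ℕ) : Bool := !decide (a = b) && adj a b

/-- The wanted flips. -/
def wfl (K : ℕ) (adj : ℕ → ℕ → Bool) (o : Bool) (a j : ℕ) : Bool :=
  if o = true then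
    (if a % (K + 1) = K then want K (fun y => gv (a / (K + 1)) y) j else false)
  else
    (if a % (K + 1) = K then want K (fun x => gh adj x (a / (K + 1))) j else
      want K (fun _ => true) j)

theorem wfl_zero (K : ℕ) (adj : ℕ → ℕ → Bool) (o : Bool) (a : ℕ) : wfl K adj o a 0 = false := by
  unfold wfl
  split_ifs <;> simp [want_zero]

section

variable {K n : ℕ} {adj : ℕ → ℕ → Bool} {ρ : Bool → ℕ → ℕ}

/-- The relation of a line to the other lines. -/
def rel (ρ : Bool → ℕ → ℕ) (o : Bool) (a j : ℕ) : Bool := decide (ρ o a < ρ (!o) j)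

/-- The loss on a line. -/
def ll (K n : ℕ) (adj : ℕ → ℕ → Bool) (ρ : Bool → ℕ → ℕ) (o : Bool) (a : ℕ) : ℕ :=
  vs K n (wfl K adj o a) (rel ρ o a)

theorem loss_eq : loss ((K + 1) * n + K) (wfl K adj) ρ =
    ∑ a ∈ range ((K + 1) * n + K), ll K n adj ρ true a +
      ∑ a ∈ range ((K + 1) * n + K), ll K n adj ρ false a := by
  unfold loss
  rw [Fintype.sum_bool]
  rfl

theorem rel_swap {p : ℕ} (hρ : ∀ a b, a < p → b < p → ρ true a ≠ ρ false b) {a b : ℕ} (ha : a < p)
    (hb : b < p) : rel ρ false b a = !rel ρ true a b := by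
  have h := hρ a b ha hb
  unfold rel
  simp only [Bool.not_false, Bool.not_true]
  rw [← decide_not]
  exact decide_eq_decide.2 (by omega)

theorem exists_clean {f : ℕ → ℕ} {F : ℕ} (hF : F < K)
    (h : ∑ a ∈ range ((K + 1) * n + K), f a ≤ F) {y : ℕ} (hy : y ≤ n) :
    ∃ t, (K + 1) * y ≤ t ∧ t < (K + 1) * y + K ∧ f t = 0 := by
  by_contra hcon
  push Not at hcon
  have h1 : ∑ a ∈ Ico ((K + 1) * y) ((K + 1) * y + K), f a ≤ F := by
    refine le_trans (sum_le_sum_of_subset fun a ha => ?_) h
    rw [mem_Ico] at ha
    rw [mem_range]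
    have := Nat.mul_le_mul_left (K + 1) hy
    omega
  have h2 : (Ico ((K + 1) * y) ((K + 1) * y + K)).card • 1 ≤
      ∑ a ∈ Ico ((K + 1) * y) ((K + 1) * y + K), f a := by
    refine card_nsmul_le_sum _ _ _ fun a ha => ?_
    rw [mem_Ico] at ha
    exact Nat.one_le_iff_ne_zero.2 (hcon a ha.1 ha.2)
  rw [Nat.card_Ico, smul_eq_mul, mul_one] at h2
  omega

/-- The cost of the position `v` (is the vertical line above the horizontal one?). -/
def cost (adj : ℕ → ℕ → Bool) (a b : ℕ) (v : Bool) : ℕ :=
  (if v = gv a b then 0 else 2) + (if (!v) = gh adj a b then 0 else 2)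

/-- Pairs of lines without preferences. -/
def neut (adj : ℕ → ℕ → Bool) (a b : ℕ) : Bool := !decide (a = b) && !adj a b

/-- Violated pairs. -/
def bad (adj : ℕ → ℕ → Bool) (a b : ℕ) (v : Bool) : Bool :=
  if a = b then !v else adj a b && v

theorem cost_eq (a b : ℕ) (v : Bool) : cost adj a b v =
    2 * (if neut adj a b = true then 1 else 0) + 4 * (if bad adj a b v = true then 1 else 0) := by
  unfold cost gv gh neut bad
  by_cases hab : a = b
  · subst hab
    cases v <;> simp
  · cases v <;> cases h : adj a b <;> simp [hab]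

/-- The number of neutral pairs. -/
def nn (adj : ℕ → ℕ → Bool) (n : ℕ) : ℕ :=
  ∑ a ∈ range n, ∑ b ∈ range n, if neut adj a b = true then 1 else 0

theorem sum_cost (v : ℕ → ℕ → Bool) : ∑ a ∈ range n, ∑ b ∈ range n, cost adj a b (v a b) =
    2 * nn adj n + 4 * ∑ a ∈ range n, ∑ b ∈ range n,
      (if bad adj a b (v a b) = true then 1 else 0) := by
  unfold nn
  simp only [cost_eq, sum_add_distrib, mul_sum]

theorem main_lt {a : ℕ} (ha : a < n) : (K + 1) * a + K < (K + 1) * n + K := by
  have : (K + 1) * a < (K + 1) * n := Nat.mul_lt_mul_of_pos_left ha (Nat.succ_pos K)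
  omega

theorem sum_split (v : ℕ → ℕ → Bool) : ∑ a ∈ range n, ∑ b ∈ range n, cost adj a b (v a b) =
    ∑ a ∈ range n, ∑ b ∈ range n, (if v a b = gv a b then 0 else 2) +
    ∑ b ∈ range n, ∑ a ∈ range n, (if (!v a b) = gh adj a b then 0 else 2) := by
  rw [sum_comm (s := range n) (t := range n) (f := fun b a => if (!v a b) = gh adj a b then 0 else 2)]
  simp only [cost, sum_add_distrib]

theorem ll_true_main (a : ℕ) : ll K n adj ρ true ((K + 1) * a + K) =
    vs K n (want K fun y => gv a y) (rel ρ true ((K + 1) * a + K)) := by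
  have h := divmod (K := K) (y := a) (r := K) (by omega)
  unfold ll
  congr 1
  funext j
  simp [wfl, h.1, h.2]

theorem ll_false_main (b : ℕ) : ll K n adj ρ false ((K + 1) * b + K) =
    vs K n (want K fun x => gh adj x b) (rel ρ false ((K + 1) * b + K)) := by
  have h := divmod (K := K) (y := b) (r := K) (by omega)
  unfold ll
  congr 1
  funext j
  simp [wfl, h.1, h.2]

theorem ll_true_top {y r : ℕ} (hr : r < K) : ll K n adj ρ true ((K + 1) * y + r) =
    vs K n (fun _ => false) (rel ρ true ((K + 1) * y + r)) := by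
  have h := divmod (K := K) (y := y) (r := r) (by omega)
  unfold ll
  congr 1
  funext j
  simp [wfl, h.2, show r ≠ K by omega]

theorem ll_false_top {y r : ℕ} (hr : r < K) : ll K n adj ρ false ((K + 1) * y + r) =
    vs K n (want K fun _ => true) (rel ρ false ((K + 1) * y + r)) := by
  have h := divmod (K := K) (y := y) (r := r) (by omega)
  unfold ll
  congr 1
  funext j
  simp [wfl, h.2, show r ≠ K by omega]

theorem sum_main_le (f : ℕ → ℕ) : ∑ y ∈ range n, f ((K + 1) * y + K) ≤
    ∑ a ∈ range ((K + 1) * n + K), f a := by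
  rw [sum_blocks, sum_add_distrib]
  omega

/-- The lower bound: an order of small loss gives positions of the main lines. -/
theorem lower {F : ℕ} (hF : F < K)
    (hρ : ∀ a b, a < (K + 1) * n + K → b < (K + 1) * n + K → ρ true a ≠ ρ false b)
    (hloss : loss ((K + 1) * n + K) (wfl K adj) ρ ≤ F) :
    ∃ c : Bool, ∑ a ∈ range n, ∑ b ∈ range n,
      cost adj a b (c != rel ρ true ((K + 1) * a + K) ((K + 1) * b + K)) ≤ F := by
  have hK : 1 ≤ K := by omega
  rw [loss_eq] at hloss
  have ht := fun y (hy : y ≤ n) => exists_clean (f := ll K n adj ρ true) hF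
    (le_trans (Nat.le_add_right _ _) hloss) hy
  have hs := fun y (hy : y ≤ n) => exists_clean (f := ll K n adj ρ false) hF
    (le_trans (Nat.le_add_left _ _) hloss) hy
  choose! t ht1 ht2 ht3 using ht
  choose! s hs1 hs2 hs3 using hs
  have hblt : ∀ y, y ≤ n → (K + 1) * y ≤ (K + 1) * n := fun y hy => Nat.mul_le_mul_left _ hy
  have htp : ∀ y ≤ n, t y < (K + 1) * n + K := fun y hy => by
    have := ht2 y hy; have := hblt y hy; omega
  have hsp : ∀ y ≤ n, s y < (K + 1) * n + K := fun y hy => by
    have := hs2 y hy; have := hblt y hy; omega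
  -- the clean tops
  have htop : ∀ y ≤ n, ∀ j < (K + 1) * n + K, rel ρ true (t y) j = rel ρ true (t y) 0 := by
    intro y hy
    obtain ⟨r, hr⟩ : ∃ r, t y = (K + 1) * y + r := ⟨t y - (K + 1) * y, by have := ht1 y hy; omega⟩
    have h1 := ht3 y hy
    have hr' : r < K := by have := ht2 y hy; omega
    rw [hr, ll_true_top hr'] at h1
    rw [hr]
    exact clean_v h1
  have hsmod : ∀ y ≤ n, ∃ r, r < K ∧ s y = (K + 1) * y + r := fun y hy =>
    ⟨s y - (K + 1) * y, by have := hs1 y hy; have := hs2 y hy; omega, by
      have := hs1 y hy; omega⟩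
  have hstop : ∀ y ≤ n, ∀ i < (K + 1) * n + K, rel ρ false (s y) i =
      (rel ρ false (s y) 0 != decide (i % (K + 1) = K)) := by
    intro y hy
    obtain ⟨r, hr', hr⟩ := hsmod y hy
    have h1 := hs3 y hy
    rw [hr, ll_false_top hr'] at h1
    rw [hr]
    exact clean_h hK h1
  have htmod : ∀ y ≤ n, decide (t y % (K + 1) = K) = false := by
    intro y hy
    obtain ⟨r, hr⟩ : ∃ r, t y = (K + 1) * y + r := ⟨t y - (K + 1) * y, by have := ht1 y hy; omega⟩
    have hr' : r < K := by have := ht2 y hy; omega
    rw [hr, (divmod (K := K) (y := y) (r := r) (by omega)).2]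
    exact decide_eq_false (by omega)
  have hcross : ∀ x ≤ n, ∀ y ≤ n, rel ρ false (s y) 0 = !rel ρ true (t x) 0 := by
    intro x hx y hy
    have h1 := rel_swap hρ (htp x hx) (hsp y hy)
    rw [htop x hx _ (hsp y hy), hstop y hy _ (htp x hx), htmod x hx] at h1
    simpa using h1
  set c : Bool := rel ρ false (s 0) 0 with hc
  have hct : ∀ x ≤ n, rel ρ true (t x) 0 = !c := by
    intro x hx
    have := hcross x hx 0 (Nat.zero_le n)
    rw [hc, this, Bool.not_not]
  have hcs : ∀ y ≤ n, rel ρ false (s y) 0 = c := by
    intro y hy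
    rw [hcross 0 (Nat.zero_le n) y hy, hct 0 (Nat.zero_le n), Bool.not_not]
  refine ⟨c, ?_⟩
  rw [sum_split]
  refine le_trans (add_le_add ?_ ?_) hloss
  · refine le_trans ?_ (sum_main_le _)
    refine sum_le_sum fun a ha => ?_
    rw [mem_range] at ha
    rw [ll_true_main]
    refine vs_lower hK hs1 hs2 fun y hy => ?_
    have h1 := rel_swap hρ (main_lt (K := K) ha) (hsp y hy)
    rw [hstop y hy _ (main_lt ha), hcs y hy,
      (divmod (K := K) (y := a) (r := K) (by omega)).2] at h1
    simpa using h1.symm
  · refine le_trans ?_ (sum_main_le _)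
    refine sum_le_sum fun b hb => ?_
    rw [mem_range] at hb
    rw [ll_false_main]
    have h2 := vs_lower (n := n) (g := fun x => gh adj x b)
      (u := rel ρ false ((K + 1) * b + K)) (c := c) hK ht1 ht2 (fun x hx => by
        rw [rel_swap hρ (htp x hx) (main_lt hb), htop x hx _ (main_lt hb), hct x hx, Bool.not_not])
    refine le_trans (le_of_eq ?_) h2
    refine sum_congr rfl fun x hx => ?_
    rw [mem_range] at hx
    rw [rel_swap hρ (main_lt hx) (main_lt hb)]
    cases c <;> cases rel ρ true ((K + 1) * x + K) ((K + 1) * b + K) <;> rfl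

/-- The order of the lines for a vertex cover. -/
def ord (K : ℕ) (C : Finset ℕ) (o : Bool) (a : ℕ) : ℕ :=
  if a % (K + 1) = K then
    (if o = true then (if a / (K + 1) ∈ C then 1 else 3) else (if a / (K + 1) ∈ C then 4 else 2))
  else (if o = true then 6 else 5)

theorem ord_ne (C : Finset ℕ) (a b : ℕ) : ord K C true a ≠ ord K C false b := by
  unfold ord
  split_ifs <;> simp_all

theorem ord_main (C : Finset ℕ) (o : Bool) (a : ℕ) : ord K C o ((K + 1) * a + K) =
    if o = true then (if a ∈ C then 1 else 3) else (if a ∈ C then 4 else 2) := by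
  have h := divmod (K := K) (y := a) (r := K) (by omega)
  unfold ord
  rw [h.1, h.2, if_pos rfl]

theorem ord_top (C : Finset ℕ) (o : Bool) {y r : ℕ} (hr : r < K) :
    ord K C o ((K + 1) * y + r) = if o = true then 6 else 5 := by
  have h := divmod (K := K) (y := y) (r := r) (by omega)
  unfold ord
  rw [h.2, if_neg (by omega)]

theorem upper_main (hK : 1 ≤ K) (C : Finset ℕ) :
    loss ((K + 1) * n + K) (wfl K adj) (ord K C) =
      ∑ a ∈ range n, ∑ b ∈ range n,
        cost adj a b (!rel (ord K C) true ((K + 1) * a + K) ((K + 1) * b + K)) := by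
  rw [loss_eq, sum_split, sum_blocks, sum_blocks]
  have z1 : ∀ y r, r < K → ll K n adj (ord K C) true ((K + 1) * y + r) = 0 := by
    intro y r hr
    rw [ll_true_top hr]
    unfold vs
    refine sum_eq_zero fun j _ => ?_
    rw [if_pos]
    have : ∀ j, rel (ord K C) true ((K + 1) * y + r) j = false := by
      intro j
      unfold rel
      rw [ord_top _ _ hr]
      refine decide_eq_false ?_
      simp only [Bool.not_true, if_true, not_lt]
      unfold ord
      split_ifs <;> simp_all
    rw [this, this]
    rfl
  have z2 : ∀ y r, r < K → ll K n adj (ord K C) false ((K + 1) * y + r) = 0 := by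
    intro y r hr
    rw [ll_false_top hr, vs_upper (c := true) hK]
    · refine sum_eq_zero fun x _ => ?_
      rw [if_pos]
      have : rel (ord K C) false ((K + 1) * y + r) ((K + 1) * x + K) = false := by
        unfold rel
        rw [ord_top _ _ hr, ord_main]
        refine decide_eq_false ?_
        simp only [Bool.not_false, if_true, Bool.false_eq_true, if_false, not_lt]
        split_ifs <;> omega
      rw [this]
      rfl
    · intro x q hq
      unfold rel
      rw [ord_top _ _ hr, ord_top _ _ hq]
      rfl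
  have m1 : ∀ a, ll K n adj (ord K C) true ((K + 1) * a + K) =
      ∑ b ∈ range n, (if (!rel (ord K C) true ((K + 1) * a + K) ((K + 1) * b + K)) = gv a b
        then 0 else 2) := by
    intro a
    rw [ll_true_main, vs_upper (c := true) hK]
    · refine sum_congr rfl fun b _ => ?_
      cases rel (ord K C) true ((K + 1) * a + K) ((K + 1) * b + K) <;> rfl
    · intro y r hr
      unfold rel
      rw [ord_top _ _ hr, ord_main]
      refine decide_eq_true ?_
      simp only [Bool.not_true, if_true, Bool.false_eq_true, if_false]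
      split_ifs <;> omega
  have m2 : ∀ b, ll K n adj (ord K C) false ((K + 1) * b + K) =
      ∑ a ∈ range n, (if (!!rel (ord K C) true ((K + 1) * a + K) ((K + 1) * b + K)) = gh adj a b
        then 0 else 2) := by
    intro b
    rw [ll_false_main, vs_upper (c := true) hK]
    · refine sum_congr rfl fun a _ => ?_
      have : rel (ord K C) false ((K + 1) * b + K) ((K + 1) * a + K) =
          !rel (ord K C) true ((K + 1) * a + K) ((K + 1) * b + K) := by
        have h := ord_ne (K := K) C ((K + 1) * a + K) ((K + 1) * b + K)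
        unfold rel
        simp only [Bool.not_false, Bool.not_true]
        rw [← decide_not]
        exact decide_eq_decide.2 (by omega)
      rw [this]
      cases rel (ord K C) true ((K + 1) * a + K) ((K + 1) * b + K) <;> rfl
    · intro y r hr
      unfold rel
      rw [ord_top _ _ hr, ord_main]
      refine decide_eq_true ?_
      simp only [Bool.not_false, if_true, Bool.false_eq_true, if_false]
      split_ifs <;> omega
  congr 1
  · have e1 : ∑ r ∈ range K, ll K n adj (ord K C) true ((K + 1) * n + r) = 0 :=
      sum_eq_zero fun r hr => z1 n r (mem_range.1 hr)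
    rw [e1, add_zero]
    refine sum_congr rfl fun a _ => ?_
    rw [sum_eq_zero fun r hr => z1 a r (mem_range.1 hr), zero_add, m1]
  · have e1 : ∑ r ∈ range K, ll K n adj (ord K C) false ((K + 1) * n + r) = 0 :=
      sum_eq_zero fun r hr => z2 n r (mem_range.1 hr)
    rw [e1, add_zero]
    refine sum_congr rfl fun a _ => ?_
    rw [sum_eq_zero fun r hr => z2 a r (mem_range.1 hr), zero_add, m2]

/-- Orders of small loss correspond to vertex covers. -/
theorem comb (hsym : ∀ a b, adj a b = adj b a) {h : ℕ} (hK : 2 * nn adj n + 4 * h < K) :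
    (∃ ρ : Bool → ℕ → ℕ,
      (∀ a b, a < (K + 1) * n + K → b < (K + 1) * n + K → ρ true a ≠ ρ false b) ∧
        loss ((K + 1) * n + K) (wfl K adj) ρ ≤ 2 * nn adj n + 4 * h) ↔
    ∃ C : Finset ℕ, C ⊆ range n ∧ C.card ≤ h ∧
      ∀ a < n, ∀ b < n, a ≠ b → adj a b = true → a ∈ C ∨ b ∈ C := by
  constructor
  · rintro ⟨ρ, hρ, hl⟩
    obtain ⟨c, hc⟩ := lower hK hρ hl
    rw [sum_cost (v := fun a b => c != rel ρ true ((K + 1) * a + K) ((K + 1) * b + K))] at hc
    set v : ℕ → ℕ → Bool := fun a b => c != rel ρ true ((K + 1) * a + K) ((K + 1) * b + K)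
      with hv
    have hc' : ∑ a ∈ range n, ∑ b ∈ range n, (if bad adj a b (v a b) = true then 1 else 0) ≤ h := by
      simp only [hv]
      omega
    classical
    refine ⟨(range n).filter fun b => ∃ a ∈ range n, bad adj a b (v a b) = true,
      filter_subset _ _, ?_, ?_⟩
    · refine le_trans ?_ hc'
      rw [sum_comm, card_filter]
      refine sum_le_sum fun b _ => ?_
      split_ifs with hb
      · obtain ⟨a, ha, hb⟩ := hb
        refine le_trans ?_ (single_le_sum (f := fun a => if bad adj a b (v a b) = true then 1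
          else 0) (fun _ _ => Nat.zero_le _) ha)
        simp [hb]
      · exact Nat.zero_le _
    · intro a ha b hb hab hadj
      by_contra hcon
      push Not at hcon
      obtain ⟨h1, h2⟩ := hcon
      simp only [mem_filter, mem_range, not_and, not_exists] at h1 h2
      have h1 := h1 ha
      have h2 := h2 hb
      have b1 := h1 a ha
      have b2 := h1 b hb
      have b3 := h2 a ha
      have b4 := h2 b hb
      simp only [bad, if_neg hab, if_neg hab.symm, if_true, hadj, hsym b a, Bool.true_and, hv]
        at b1 b2 b3 b4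
      have r1 := hρ _ _ (main_lt (K := K) ha) (main_lt (K := K) ha)
      have r2 := hρ _ _ (main_lt (K := K) ha) (main_lt (K := K) hb)
      have r3 := hρ _ _ (main_lt (K := K) hb) (main_lt (K := K) ha)
      have r4 := hρ _ _ (main_lt (K := K) hb) (main_lt (K := K) hb)
      unfold rel at b1 b2 b3 b4
      simp only [Bool.not_true] at b1 b2 b3 b4
      cases c <;> simp at b1 b2 b3 b4 <;> omega
  · rintro ⟨C, hCn, hCh, hC⟩
    refine ⟨ord K C, fun a b _ _ => ord_ne C a b, ?_⟩
    rw [upper_main (by omega),
      sum_cost (v := fun a b => !rel (ord K C) true ((K + 1) * a + K) ((K + 1) * b + K))]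
    have : ∑ a ∈ range n, ∑ b ∈ range n, (if bad adj a b
        (!rel (ord K C) true ((K + 1) * a + K) ((K + 1) * b + K)) = true then 1 else 0) ≤ h := by
      refine le_trans ?_ hCh
      have hcard : C.card = ∑ a ∈ range n, if a ∈ C then 1 else 0 := by
        rw [← card_filter, filter_mem_eq_inter, inter_eq_right.2 hCn]
      rw [hcard]
      refine sum_le_sum fun a ha => ?_
      have hval : ∀ b ∈ range n, (if bad adj a b
          (!rel (ord K C) true ((K + 1) * a + K) ((K + 1) * b + K)) = true then 1 else 0) =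
          if b = a then (if a ∈ C then 1 else 0) else 0 := by
        intro b hb
        unfold rel bad
        rw [Bool.not_true, ord_main, ord_main]
        by_cases hab : a = b
        · subst hab
          by_cases haC : a ∈ C <;> simp [haC]
        · rw [if_neg (Ne.symm hab)]
          cases hadj : adj a b
          · simp [hab]
          · have := hC a (mem_range.1 ha) b (mem_range.1 hb) hab hadj
            by_cases haC : a ∈ C <;> by_cases hbC : b ∈ C <;> simp_all
      rw [sum_congr rfl hval, sum_ite_eq' (range n) a (fun _ => if a ∈ C then 1 else 0), if_pos ha]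
    omega

end

end Pool.Agent.Q227.SW
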