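import Mathlib

/-!
# Straight-line drawings of graphs and switches of stackings
-/

set_option autoImplicit false

namespace Pool.Agent.Q227.SW

/-- A segment with endpoints in `ℕ × ℕ`. -/
abbrev Seg : Type := (ℕ × ℕ) × (ℕ × ℕ)

/-- The point of the segment `e` with the parameter `s`. -/
noncomputable def pt (e : Seg) (s : ℝ) : ℝ × ℝ :=
  ((1 - s) * e.1.1 + s * e.2.1, (1 - s) * e.1.2 + s * e.2.2)

/-- The edges `e` and `f` are different and have a common interior point, which has the parameter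
`s` on `e`. -/
def CrossAt (e f : Seg) (s : ℝ) : Prop :=
  e ≠ f ∧ 0 < s ∧ s < 1 ∧ ∃ t : ℝ, 0 < t ∧ t < 1 ∧ pt e s = pt f t

/-- The vertices of the graph: the endpoints of the edges. -/
def IsVertex (Γ : List Seg) (x : ℕ × ℕ) : Prop := ∃ e ∈ Γ, x = e.1 ∨ x = e.2

/-- The vertices `x` and `y` are joined by an edge. -/
def Joined (Γ : List Seg) (x y : ℕ × ℕ) : Prop := (x, y) ∈ Γ ∨ (y, x) ∈ Γ

/-- The list of segments `Γ` is a regular straight-line drawing of a simple connected graph: the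
edges are different pairs of different points; no edge passes through a vertex; two edges cross at
most once; edges with a common endpoint do not cross; no three edges meet in one point; the graph is
connected. -/
structure Regular (Γ : List Seg) : Prop where
  nodup : Γ.Nodup
  simple : ∀ e ∈ Γ, e.1 ≠ e.2 ∧ (e.2, e.1) ∉ Γ
  vertex : ∀ e ∈ Γ, ∀ f ∈ Γ, ∀ s : ℝ, 0 < s → s < 1 → pt e s ≠ pt f 0 ∧ pt e s ≠ pt f 1
  once : ∀ e ∈ Γ, ∀ f ∈ Γ, ∀ s s' : ℝ, CrossAt e f s → CrossAt e f s' → s = s'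
  adjacent : ∀ e ∈ Γ, ∀ f ∈ Γ, (e.1 = f.1 ∨ e.1 = f.2 ∨ e.2 = f.1 ∨ e.2 = f.2) →
    ∀ s : ℝ, ¬ CrossAt e f s
  triple : ∀ e ∈ Γ, ∀ f ∈ Γ, ∀ g ∈ Γ, ∀ s : ℝ, CrossAt e f s → CrossAt e g s → f = g
  connected : ∀ x y, IsVertex Γ x → IsVertex Γ y → Relation.ReflTransGen (Joined Γ) x y

/-- The crossings of `e` with `f` and with `g` follow one another along `e`. -/
def Consec (Γ : List Seg) (e f g : Seg) : Prop :=
  e ∈ Γ ∧ f ∈ Γ ∧ g ∈ Γ ∧ ∃ s s' : ℝ, s < s' ∧ CrossAt e f s ∧ CrossAt e g s' ∧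
    ∀ h ∈ Γ, ∀ r, CrossAt e h r → ¬ (s < r ∧ r < s')

/-- The edge `e` is above exactly one of the edges `f` and `g` (and below the other one) in the
stacking given by `σ`. -/
def Between (σ : Seg → ℕ) (e f g : Seg) : Prop :=
  σ f < σ e ∧ σ e < σ g ∨ σ g < σ e ∧ σ e < σ f

/-- The total number of switches of the stacking in which `f` is above `e` iff `σ e < σ f`. -/
noncomputable def switches (Γ : List Seg) (σ : Seg → ℕ) : ℕ :=
  Set.ncard {x : Seg × Seg × Seg | Consec Γ x.1 x.2.1 x.2.2 ∧ Between σ x.1 x.2.1 x.2.2}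

/-- There is a stacking (a linear order of the edges, given by an injective function `σ`) with at
least `N` switches. -/
def ManySwitches (I : List Seg × ℕ) : Prop :=
  ∃ σ : Seg → ℕ, Set.InjOn σ {e | e ∈ I.1} ∧ I.2 ≤ switches I.1 σ

end Pool.Agent.Q227.SW
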