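import Pool.Agent.Q227.SW.Defs

/-!
# The drawing: a grid of long segments, the dual grid and pendant edges
-/

set_option autoImplicit false

namespace Pool.Agent.Q227.SW

/-- Codes of the edges: vertical lines, horizontal lines, short edges. -/
inductive Ed : Type
  | V : ℕ → Ed
  | H : ℕ → Ed
  | E : ℕ → ℕ → ℕ → Ed
  deriving DecidableEq

open Ed

/-- The second endpoint of a short edge. -/
def tip (k i j : ℕ) : ℕ × ℕ :=
  if k = 0 then (4 * i + 5, 4 * j + 1) else if k = 1 then (4 * i + 1, 4 * j + 5) else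
  if k = 2 then (4 * i + 4, 4 * j + 2) else if k = 3 then (4 * i + 2, 4 * j + 4) else
  if k = 4 then (4 * i + 3, 4 * j) else (4 * i, 4 * j + 3)

/-- The segment of a code. -/
def seg (p : ℕ) : Ed → Seg
  | V a => ((4 * a + 3, 0), (4 * a + 3, 4 * p + 2))
  | H b => ((0, 4 * b + 3), (4 * p + 2, 4 * b + 3))
  | E k i j => ((4 * i + 1, 4 * j + 1), tip k i j)

/-- The codes of the edges which are present; `fl true a j` says that there is a pendant edge which
crosses the vertical line `a` before the horizontal line `j`, and `fl false a j` says that there is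
a pendant edge which crosses the horizontal line `a` before the vertical line `j`. -/
def Pres (p : ℕ) (fl : Bool → ℕ → ℕ → Bool) : Ed → Prop
  | V a => a < p
  | H b => b < p
  | E k i j => (k = 0 ∧ i < p ∧ j ≤ p) ∨ (k = 1 ∧ i ≤ p ∧ j < p) ∨
      (k = 2 ∧ i < p ∧ j < p ∧ fl true i j = true) ∨
      (k = 3 ∧ i < p ∧ j < p ∧ fl false j i = true) ∨
      (k = 4 ∧ i < p ∧ j = 0) ∨ (k = 5 ∧ i = 0 ∧ j < p)

/-- Exchange of the coordinates. -/
def sw : Ed → Ed
  | V a => H a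
  | H a => V a
  | E k i j => E (if k = 0 then 1 else if k = 1 then 0 else if k = 2 then 3 else if k = 3 then 2
      else if k = 4 then 5 else if k = 5 then 4 else k) j i

def flip' (e : Seg) : Seg := ((e.1.2, e.1.1), (e.2.2, e.2.1))

theorem sw_sw {p : ℕ} {fl : Bool → ℕ → ℕ → Bool} {x : Ed} (h : Pres p fl x) : sw (sw x) = x := by
  cases x with
  | V a => rfl
  | H a => rfl
  | E k i j =>
    simp only [Pres] at h
    rcases h with ⟨rfl, h1, h2⟩ | ⟨rfl, h1, h2⟩ | ⟨rfl, h1, h2, h3⟩ | ⟨rfl, h1, h2, h3⟩ |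
      ⟨rfl, h1, h2⟩ | ⟨rfl, h1, h2⟩ <;> simp [sw]

theorem pres_sw {p : ℕ} {fl : Bool → ℕ → ℕ → Bool} {x : Ed} (h : Pres p fl x) :
    Pres p (fun o => fl (!o)) (sw x) := by
  cases x with
  | V a => exact h
  | H a => exact h
  | E k i j =>
    simp only [Pres, sw] at h ⊢
    rcases h with ⟨rfl, h1, h2⟩ | ⟨rfl, h1, h2⟩ | ⟨rfl, h1, h2, h3⟩ | ⟨rfl, h1, h2, h3⟩ |
      ⟨rfl, h1, h2⟩ | ⟨rfl, h1, h2⟩ <;> simp_all

theorem seg_sw {p : ℕ} {fl : Bool → ℕ → ℕ → Bool} {x : Ed} (h : Pres p fl x) :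
    seg p (sw x) = flip' (seg p x) := by
  cases x with
  | V a => rfl
  | H a => rfl
  | E k i j =>
    simp only [Pres] at h
    rcases h with ⟨rfl, h1, h2⟩ | ⟨rfl, h1, h2⟩ | ⟨rfl, h1, h2, h3⟩ | ⟨rfl, h1, h2, h3⟩ |
      ⟨rfl, h1, h2⟩ | ⟨rfl, h1, h2⟩ <;> simp [seg, sw, flip', tip]

theorem cross_flip {e f : Seg} {s : ℝ} (h : CrossAt e f s) : CrossAt (flip' e) (flip' f) s := by
  obtain ⟨h1, h2, h3, t, h4, h5, h6⟩ := h
  refine ⟨?_, h2, h3, t, h4, h5, ?_⟩
  · intro hc
    apply h1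
    simp only [flip', Prod.mk.injEq] at hc
    exact Prod.ext (Prod.ext hc.1.2 hc.1.1) (Prod.ext hc.2.2 hc.2.1)
  · simp only [pt, flip', Prod.mk.injEq] at h6 ⊢
    exact ⟨h6.2, h6.1⟩

theorem flip_flip (e : Seg) : flip' (flip' e) = e := rfl

theorem cross_flip_iff {e f : Seg} {s : ℝ} : CrossAt (flip' e) (flip' f) s ↔ CrossAt e f s :=
  ⟨fun h => cross_flip h, cross_flip⟩

/-- The direction of a short edge. -/
def dir (k : ℕ) : ℤ × ℤ :=
  if k = 0 then (4, 0) else if k = 1 then (0, 4) else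
  if k = 2 then (3, 1) else if k = 3 then (1, 3) else
  if k = 4 then (2, -1) else (-1, 2)

theorem pt_E {p k i j : ℕ} (t : ℝ) :
    pt (seg p (E k i j)) t = (4 * i + 1 + (dir k).1 * t, 4 * j + 1 + (dir k).2 * t) := by
  unfold pt seg tip dir
  by_cases h0 : k = 0
  · subst h0; simp; constructor <;> ring
  by_cases h1 : k = 1
  · subst h1; simp; constructor <;> ring
  by_cases h2 : k = 2
  · subst h2; simp; constructor <;> ring
  by_cases h3 : k = 3
  · subst h3; simp; constructor <;> ring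
  by_cases h4 : k = 4
  · subst h4; simp; constructor <;> ring
  simp [h0, h1, h2, h3, h4]; constructor <;> ring

theorem pt_V {p a : ℕ} (t : ℝ) : pt (seg p (V a)) t = (4 * (a : ℝ) + 3, (4 * p + 2) * t) := by
  unfold pt seg
  push_cast
  ext <;> simp only <;> ring

theorem pt_H {p a : ℕ} (t : ℝ) : pt (seg p (H a)) t = ((4 * p + 2) * t, 4 * (a : ℝ) + 3) := by
  unfold pt seg
  push_cast
  ext <;> simp only <;> ring

/-- The positions on a vertical line, three times the ordinate. -/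
def pos : Ed → ℕ
  | V _ => 0
  | H b => 12 * b + 9
  | E k _ j => if k = 0 then 12 * j + 3 else 12 * j + 5

/-- The codes of the edges which cross the vertical line `a`. -/
def OnV (a : ℕ) : Ed → Prop
  | V _ => False
  | H _ => True
  | E k i _ => (k = 0 ∨ k = 2) ∧ i = a

section cross

variable {p : ℕ} {fl : Bool → ℕ → ℕ → Bool}

/-- The crossings of a vertical line. -/
theorem cross_V {a : ℕ} {y : Ed} {s : ℝ} (ha : a < p) (hy : Pres p fl y)
    (h : CrossAt (seg p (V a)) (seg p y) s) :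
    OnV a y ∧ 3 * (4 * p + 2) * s = pos y := by
  obtain ⟨hne, h1, h2, t, h3, h4, h5⟩ := h
  cases y with
  | V b =>
    exfalso
    rw [pt_V, pt_V, Prod.mk.injEq] at h5
    have : (a : ℝ) = b := by linarith [h5.1]
    have : a = b := by exact_mod_cast this
    exact hne (by rw [this])
  | H b =>
    rw [pt_V, pt_H, Prod.mk.injEq] at h5
    refine ⟨trivial, ?_⟩
    simp only [pos]
    push_cast
    linarith [h5.2]
  | E k i j =>
    rw [pt_V, pt_E, Prod.mk.injEq] at h5
    obtain ⟨h5, h6⟩ := h5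
    simp only [Pres] at hy
    rcases hy with ⟨rfl, g1, g2⟩ | ⟨rfl, g1, g2⟩ | ⟨rfl, g1, g2, g3⟩ | ⟨rfl, g1, g2, g3⟩ |
      ⟨rfl, g1, g2⟩ | ⟨rfl, g1, g2⟩
    · simp [dir] at h5 h6
      have k1 : (0 : ℝ) < 4 * a + 2 - 4 * i := by linarith
      have k2 : (4 : ℝ) * a + 2 - 4 * i < 4 := by linarith
      have k3 : (0 : ℤ) < 4 * a + 2 - 4 * i := by exact_mod_cast k1
      have k4 : (4 : ℤ) * a + 2 - 4 * i < 4 := by exact_mod_cast k2
      have k5 : i = a := by omega
      refine ⟨⟨Or.inl rfl, k5⟩, ?_⟩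
      simp only [pos]
      push_cast
      linarith
    · exfalso
      simp [dir] at h5
      have k1 : (4 : ℤ) * a + 3 = 4 * i + 1 := by exact_mod_cast h5
      omega
    · simp [dir] at h5 h6
      have k1 : (0 : ℝ) < 4 * a + 2 - 4 * i := by linarith
      have k2 : (4 : ℝ) * a + 2 - 4 * i < 3 := by linarith
      have k3 : (0 : ℤ) < 4 * a + 2 - 4 * i := by exact_mod_cast k1
      have k4 : (4 : ℤ) * a + 2 - 4 * i < 3 := by exact_mod_cast k2
      have k5 : i = a := by omega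
      subst k5
      refine ⟨⟨Or.inr rfl, rfl⟩, ?_⟩
      simp only [pos]
      push_cast
      linarith
    · exfalso
      simp [dir] at h5
      have k1 : (0 : ℝ) < 4 * a + 2 - 4 * i := by linarith
      have k2 : (4 : ℝ) * a + 2 - 4 * i < 1 := by linarith
      have k3 : (0 : ℤ) < 4 * a + 2 - 4 * i := by exact_mod_cast k1
      have k4 : (4 : ℤ) * a + 2 - 4 * i < 1 := by exact_mod_cast k2
      omega
    · exfalso
      simp [dir] at h5
      have k1 : (0 : ℝ) < 4 * a + 2 - 4 * i := by linarith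
      have k2 : (4 : ℝ) * a + 2 - 4 * i < 2 := by linarith
      have k3 : (0 : ℤ) < 4 * a + 2 - 4 * i := by exact_mod_cast k1
      have k4 : (4 : ℤ) * a + 2 - 4 * i < 2 := by exact_mod_cast k2
      omega
    · exfalso
      subst g1
      simp [dir] at h5
      have : (0 : ℝ) ≤ a := Nat.cast_nonneg a
      linarith

/-- Conversely. -/
theorem cross_V' {a : ℕ} {y : Ed} (ha : a < p) (hy : Pres p fl y) (hon : OnV a y) :
    CrossAt (seg p (V a)) (seg p y) (pos y / (3 * (4 * p + 2))) := by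
  have hp : (0 : ℝ) < 4 * p + 2 := by positivity
  have ha' : (a : ℝ) + 1 ≤ p := by exact_mod_cast ha
  cases y with
  | V b => exact absurd hon (by simp [OnV])
  | H b =>
    have hb : b < p := hy
    have hb' : (b : ℝ) + 1 ≤ p := by exact_mod_cast hb
    refine ⟨?_, ?_, ?_, (4 * a + 3) / (4 * p + 2), ?_, ?_, ?_⟩
    · intro hc
      simp [seg] at hc
    · simp only [pos]; push_cast; positivity
    · rw [div_lt_one (by positivity)]
      simp only [pos]; push_cast; linarith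
    · positivity
    · rw [div_lt_one hp]; linarith
    · rw [pt_V, pt_H]
      simp only [pos]
      push_cast
      ext
      · simp only; field_simp
      · simp only; field_simp; ring
  | E k i j =>
    obtain ⟨hk, rfl⟩ := hon
    simp only [Pres] at hy
    rcases hk with rfl | rfl
    · have hj : j ≤ p := by
        rcases hy with ⟨_, g1, g2⟩ | ⟨g, _⟩ | ⟨g, _⟩ | ⟨g, _⟩ | ⟨g, _⟩ | ⟨g, _⟩ <;> omega
      have hj' : (j : ℝ) ≤ p := by exact_mod_cast hj
      refine ⟨?_, ?_, ?_, 1 / 2, by norm_num, by norm_num, ?_⟩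
      · intro hc
        simp [seg] at hc
      · simp only [pos]; push_cast; positivity
      · rw [div_lt_one (by positivity)]
        simp only [pos]; push_cast; linarith
      · rw [pt_V, pt_E]
        simp only [pos, dir]
        push_cast
        ext
        · simp only [if_true]; norm_num; ring
        · simp only [if_true]; field_simp; norm_num; ring
    · have hj : j < p := by
        rcases hy with ⟨g, _⟩ | ⟨g, _⟩ | ⟨_, g1, g2, _⟩ | ⟨g, _⟩ | ⟨g, _⟩ | ⟨g, _⟩ <;> omega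
      have hj' : (j : ℝ) + 1 ≤ p := by exact_mod_cast hj
      refine ⟨?_, ?_, ?_, 2 / 3, by norm_num, by norm_num, ?_⟩
      · intro hc
        simp [seg] at hc
      · simp only [pos]; push_cast; positivity
      · rw [div_lt_one (by positivity)]
        simp [pos]; linarith
      · rw [pt_V, pt_E]
        simp [pos, dir]
        constructor
        · ring
        · field_simp; norm_num; ring

theorem dir_bound (k : ℕ) {t : ℝ} (h0 : 0 < t) (h1 : t < 1) :
    (-1 < (dir k).1 * t ∧ (dir k).1 * t < 4) ∧ (-1 < (dir k).2 * t ∧ (dir k).2 * t < 4) := by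
  unfold dir
  split_ifs <;> push_cast <;> refine ⟨⟨?_, ?_⟩, ⟨?_, ?_⟩⟩ <;> linarith

/-- Short edges do not cross. -/
theorem cross_E {k i j k' i' j' : ℕ} {s : ℝ} (hx : Pres p fl (E k i j))
    (hy : Pres p fl (E k' i' j')) : ¬ CrossAt (seg p (E k i j)) (seg p (E k' i' j')) s := by
  rintro ⟨hne, h1, h2, t, h3, h4, h5⟩
  rw [pt_E, pt_E, Prod.mk.injEq] at h5
  obtain ⟨h5, h6⟩ := h5
  obtain ⟨X, hX⟩ : ∃ X : ℤ, X = (i : ℤ) - i' := ⟨_, rfl⟩
  obtain ⟨Y, hY⟩ : ∃ Y : ℤ, Y = (j : ℤ) - j' := ⟨_, rfl⟩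
  have hXr : (X : ℝ) = i - i' := by rw [hX]; push_cast; ring
  have hYr : (Y : ℝ) = j - j' := by rw [hY]; push_cast; ring
  have e1 : 4 * (X : ℝ) = (dir k').1 * t - (dir k).1 * s := by rw [hXr]; linarith
  have e2 : 4 * (Y : ℝ) = (dir k').2 * t - (dir k).2 * s := by rw [hYr]; linarith
  have hij : k = k' → X = 0 → Y = 0 → False := by
    intro hk hX0 hY0
    apply hne
    have : i = i' := by omega
    have : j = j' := by omega
    subst_vars
    rfl
  obtain ⟨⟨d1, d2⟩, ⟨d3, d4⟩⟩ := dir_bound k h1 h2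
  obtain ⟨⟨d5, d6⟩, ⟨d7, d8⟩⟩ := dir_bound k' h3 h4
  have hXc : X = -1 ∨ X = 0 ∨ X = 1 := by
    have k1 : (4 : ℝ) * X < 8 := by linarith
    have k2 : (-8 : ℝ) < 4 * X := by linarith
    have k3 : (4 : ℤ) * X < 8 := by exact_mod_cast k1
    have k4 : (-8 : ℤ) < 4 * X := by exact_mod_cast k2
    omega
  have hYc : Y = -1 ∨ Y = 0 ∨ Y = 1 := by
    have k1 : (4 : ℝ) * Y < 8 := by linarith
    have k2 : (-8 : ℝ) < 4 * Y := by linarith
    have k3 : (4 : ℤ) * Y < 8 := by exact_mod_cast k1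
    have k4 : (-8 : ℤ) < 4 * Y := by exact_mod_cast k2
    omega
  clear d1 d2 d3 d4 d5 d6 d7 d8 h5 h6 hXr hYr hne
  simp only [Pres] at hx hy
  rcases hXc with hX0 | hX0 | hX0 <;> rcases hYc with hY0 | hY0 | hY0 <;>
  rw [hX0] at e1 <;> rw [hY0] at e2 <;>
  rcases hx with ⟨rfl, a1, a2⟩ | ⟨rfl, a1, a2⟩ | ⟨rfl, a1, a2, a3⟩ | ⟨rfl, a1, a2, a3⟩ |
      ⟨rfl, a1, a2⟩ | ⟨rfl, a1, a2⟩ <;>
  rcases hy with ⟨rfl, b1, b2⟩ | ⟨rfl, b1, b2⟩ | ⟨rfl, b1, b2, b3⟩ | ⟨rfl, b1, b2, b3⟩ |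
      ⟨rfl, b1, b2⟩ | ⟨rfl, b1, b2⟩ <;>
  first
  | exact hij rfl hX0 hY0
  | (exfalso; norm_num [dir] at e1 e2 <;> linarith)
  | (exfalso; norm_num [dir] at e1 e2 <;> omega)
  | (exfalso; norm_num [dir] at e1)
  | (exfalso; norm_num [dir] at e2)
  | (exfalso; omega)

theorem cross_symm {e f : Seg} {s : ℝ} (h : CrossAt e f s) : ∃ t, CrossAt f e t := by
  obtain ⟨h1, h2, h3, t, h4, h5, h6⟩ := h
  exact ⟨t, h1.symm, h4, h5, s, h2, h3, h6.symm⟩

end cross

end Pool.Agent.Q227.SW
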