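import Pool.Agent.Q227.SW.Red

/-!
# The reduction is computable in polynomial time
-/

set_option autoImplicit false

namespace Pool.Agent.Q227.SW

open Pool.Agent.NPC Pool.Agent.Q227.TF

theorem lenU : UPoly (fun φ : F3 => φ.length) := UPoly.length NPC.Poly.id

theorem nU : UPoly (fun φ : F3 => 3 * φ.length) := UPoly.mul (UPoly.const 3) lenU

theorem kkU : UPoly kk := by
  unfold kk
  exact UPoly.add (UPoly.add (UPoly.mul (UPoly.const 18) (UPoly.mul lenU lenU))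
    (UPoly.mul (UPoly.const 8) lenU)) (UPoly.const 1)

theorem ppU : UPoly pp := by
  unfold pp
  exact UPoly.add (UPoly.mul (UPoly.add kkU (UPoly.const 1)) nU) kkU

theorem lit_poly : NPC.Poly (fun p : F3 × ℕ => lit p.1 p.2) := by
  unfold lit
  fun_prop

theorem adjO_poly : NPC.Poly (fun p : F3 × ℕ × ℕ => adjO p.1 p.2.1 p.2.2) := by
  have h1 : NPC.Poly (fun p : F3 × ℕ × ℕ => lit p.1 p.2.1) :=
    lit_poly.comp (f := fun p : F3 × ℕ × ℕ => (p.1, p.2.1)) (by fun_prop)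
  have h2 : NPC.Poly (fun p : F3 × ℕ × ℕ => lit p.1 p.2.2) :=
    lit_poly.comp (f := fun p : F3 × ℕ × ℕ => (p.1, p.2.2)) (by fun_prop)
  unfold adjO
  fun_prop

theorem neut_poly : NPC.Poly (fun p : F3 × ℕ × ℕ => neut (adjO p.1) p.2.1 p.2.2) := by
  have h1 := adjO_poly
  unfold neut
  fun_prop

theorem ww_poly (o : Bool) : NPC.Poly (fun p : F3 × ℕ × ℕ => ww p.1 o p.2.1 p.2.2) := by
  have hk : NPC.Poly (fun p : F3 × ℕ × ℕ => kk p.1) :=
    kkU.toPoly.comp (f := fun p : F3 × ℕ × ℕ => p.1) (by fun_prop)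
  have a1 : NPC.Poly (fun p : F3 × ℕ × ℕ => adjO p.1 (p.2.2 / (kk p.1 + 1))
      (p.2.1 / (kk p.1 + 1))) :=
    adjO_poly.comp (f := fun p : F3 × ℕ × ℕ => (p.1, p.2.2 / (kk p.1 + 1),
      p.2.1 / (kk p.1 + 1))) (by fun_prop)
  have a2 : NPC.Poly (fun p : F3 × ℕ × ℕ => adjO p.1 (p.2.2 / (kk p.1 + 1) - 1)
      (p.2.1 / (kk p.1 + 1))) :=
    adjO_poly.comp (f := fun p : F3 × ℕ × ℕ => (p.1, p.2.2 / (kk p.1 + 1) - 1,
      p.2.1 / (kk p.1 + 1))) (by fun_prop)
  unfold ww wfl want gv gh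
  cases o
  · simp only [Bool.false_eq_true, if_false]
    fun_prop
  · simp only [if_true]
    fun_prop

theorem nl_poly : NPC.Poly nl := by
  have h1 : NPC.Poly (fun φ : F3 => List.range (3 * φ.length)) := nU.range
  have h1' : NPC.Poly (fun p : F3 × ℕ => List.range (3 * p.1.length)) :=
    h1.comp (f := fun p : F3 × ℕ => p.1) (by fun_prop)
  have h2 : NPC.Poly (fun q : (F3 × ℕ) × ℕ => neut (adjO q.1.1) q.1.2 q.2) :=
    neut_poly.comp (f := fun q : (F3 × ℕ) × ℕ => (q.1.1, q.1.2, q.2)) (by fun_prop)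
  have h3 : NPC.Poly (fun p : F3 × ℕ =>
      (List.range (3 * p.1.length)).filter fun b => neut (adjO p.1) p.2 b) :=
    NPC.Poly.filter h1' h2
  exact NPC.Poly.length (NPC.Poly.flatMap h1 h3)

theorem sls_poly : NPC.Poly sls := by
  have h1 : NPC.Poly (fun φ : F3 => List.range (pp φ)) := ppU.range
  have h1' : NPC.Poly (fun p : F3 × ℕ => List.range (pp p.1)) :=
    h1.comp (f := fun p : F3 × ℕ => p.1) (by fun_prop)
  have key : ∀ o, NPC.Poly (fun φ : F3 => ((List.range (pp φ)).map fun a =>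
      ((List.range (pp φ)).map fun j => 2 + if ww φ o a j = true then 1 else 0).sum).sum) := by
    intro o
    have h2 : NPC.Poly (fun q : (F3 × ℕ) × ℕ => ww q.1.1 o q.1.2 q.2) :=
      (ww_poly o).comp (f := fun q : (F3 × ℕ) × ℕ => (q.1.1, q.1.2, q.2)) (by fun_prop)
    have h3 : NPC.Poly (fun q : (F3 × ℕ) × ℕ => 2 + if ww q.1.1 o q.1.2 q.2 = true then 1
      else 0) := by fun_prop
    exact NPC.Poly.sum (NPC.Poly.map h1 (NPC.Poly.sum (NPC.Poly.map h1' h3)))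
  exact NPC.Poly.add (key true) (key false)

theorem drawing_eq (p : ℕ) (fl : Bool → ℕ → ℕ → Bool) : drawing p fl =
    (List.range p).map (fun a => (((4 * a + 3, 0), (4 * a + 3, 4 * p + 2)) : Seg)) ++
    ((List.range p).map (fun b => (((0, 4 * b + 3), (4 * p + 2, 4 * b + 3)) : Seg)) ++
    (List.range (p + 1)).flatMap fun i => (List.range (p + 1)).flatMap fun j =>
      (if i < p ∧ j ≤ p then [(((4 * i + 1, 4 * j + 1), (4 * i + 5, 4 * j + 1)) : Seg)] else []) ++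
      ((if i ≤ p ∧ j < p then [(((4 * i + 1, 4 * j + 1), (4 * i + 1, 4 * j + 5)) : Seg)] else []) ++
      ((if i < p ∧ j < p ∧ fl true i j = true then
        [(((4 * i + 1, 4 * j + 1), (4 * i + 4, 4 * j + 2)) : Seg)] else []) ++
      ((if i < p ∧ j < p ∧ fl false j i = true then
        [(((4 * i + 1, 4 * j + 1), (4 * i + 2, 4 * j + 4)) : Seg)] else []) ++
      ((if i < p ∧ j = 0 then [(((4 * i + 1, 4 * j + 1), (4 * i + 3, 4 * j)) : Seg)] else []) ++
        (if i = 0 ∧ j < p then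
          [(((4 * i + 1, 4 * j + 1), (4 * i, 4 * j + 3)) : Seg)] else [])))))) := by
  unfold drawing codes
  rw [List.map_append, List.map_append, List.map_map, List.map_map, List.map_flatMap]
  congr 1
  congr 1
  refine congrArg (fun f => List.flatMap f (List.range (p + 1))) ?_
  funext i
  rw [List.map_flatMap]
  refine congrArg (fun f => List.flatMap f (List.range (p + 1))) ?_
  funext j
  unfold sh
  simp only [List.map_append, apply_ite (List.map (seg p)), List.map_cons, List.map_nil, seg, tip]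
  rfl

theorem drawing_poly : NPC.Poly (fun φ : F3 => drawing (pp φ) (ww φ)) := by
  have h0 : NPC.Poly (fun φ : F3 => pp φ) := ppU.toPoly
  have h1 : NPC.Poly (fun φ : F3 => List.range (pp φ)) := ppU.range
  have h1' : NPC.Poly (fun φ : F3 => List.range (pp φ + 1)) :=
    (UPoly.add ppU (UPoly.const 1)).range
  have h2 : NPC.Poly (fun q : (F3 × ℕ) × ℕ => ww q.1.1 true q.1.2 q.2) :=
    (ww_poly true).comp (f := fun q : (F3 × ℕ) × ℕ => (q.1.1, q.1.2, q.2)) (by fun_prop)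
  have h3 : NPC.Poly (fun q : (F3 × ℕ) × ℕ => ww q.1.1 false q.2 q.1.2) :=
    (ww_poly false).comp (f := fun q : (F3 × ℕ) × ℕ => (q.1.1, q.2, q.1.2)) (by fun_prop)
  have h0' : NPC.Poly (fun q : (F3 × ℕ) × ℕ => pp q.1.1) :=
    h0.comp (f := fun q : (F3 × ℕ) × ℕ => q.1.1) (by fun_prop)
  have h1'' : NPC.Poly (fun p : F3 × ℕ => List.range (pp p.1 + 1)) :=
    h1'.comp (f := fun p : F3 × ℕ => p.1) (by fun_prop)
  have h4 : NPC.Poly (fun q : (F3 × ℕ) × ℕ =>
      (if q.1.2 < pp q.1.1 ∧ q.2 ≤ pp q.1.1 then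
        [(((4 * q.1.2 + 1, 4 * q.2 + 1), (4 * q.1.2 + 5, 4 * q.2 + 1)) : Seg)] else []) ++
      ((if q.1.2 ≤ pp q.1.1 ∧ q.2 < pp q.1.1 then
        [(((4 * q.1.2 + 1, 4 * q.2 + 1), (4 * q.1.2 + 1, 4 * q.2 + 5)) : Seg)] else []) ++
      ((if q.1.2 < pp q.1.1 ∧ q.2 < pp q.1.1 ∧ ww q.1.1 true q.1.2 q.2 = true then
        [(((4 * q.1.2 + 1, 4 * q.2 + 1), (4 * q.1.2 + 4, 4 * q.2 + 2)) : Seg)] else []) ++
      ((if q.1.2 < pp q.1.1 ∧ q.2 < pp q.1.1 ∧ ww q.1.1 false q.2 q.1.2 = true then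
        [(((4 * q.1.2 + 1, 4 * q.2 + 1), (4 * q.1.2 + 2, 4 * q.2 + 4)) : Seg)] else []) ++
      ((if q.1.2 < pp q.1.1 ∧ q.2 = 0 then
        [(((4 * q.1.2 + 1, 4 * q.2 + 1), (4 * q.1.2 + 3, 4 * q.2)) : Seg)] else []) ++
        (if q.1.2 = 0 ∧ q.2 < pp q.1.1 then
          [(((4 * q.1.2 + 1, 4 * q.2 + 1), (4 * q.1.2, 4 * q.2 + 3)) : Seg)] else [])))))) := by
    fun_prop
  have h5 : NPC.Poly (fun φ : F3 => (List.range (pp φ)).map
      (fun a => (((4 * a + 3, 0), (4 * a + 3, 4 * pp φ + 2)) : Seg))) := by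
    have e : NPC.Poly (fun p : F3 × ℕ => pp p.1) :=
      h0.comp (f := fun p : F3 × ℕ => p.1) (by fun_prop)
    have e' : NPC.Poly (fun p : F3 × ℕ =>
      (((4 * p.2 + 3, 0), (4 * p.2 + 3, 4 * pp p.1 + 2)) : Seg)) := by fun_prop
    exact NPC.Poly.map h1 e'
  have h6 : NPC.Poly (fun φ : F3 => (List.range (pp φ)).map
      (fun b => (((0, 4 * b + 3), (4 * pp φ + 2, 4 * b + 3)) : Seg))) := by
    have e : NPC.Poly (fun p : F3 × ℕ => pp p.1) :=
      h0.comp (f := fun p : F3 × ℕ => p.1) (by fun_prop)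
    have e' : NPC.Poly (fun p : F3 × ℕ =>
      (((0, 4 * p.2 + 3), (4 * pp p.1 + 2, 4 * p.2 + 3)) : Seg)) := by fun_prop
    exact NPC.Poly.map h1 e'
  simp only [drawing_eq]
  exact NPC.Poly.append h5 (NPC.Poly.append h6
    (NPC.Poly.flatMap h1' (NPC.Poly.flatMap h1'' h4)))

theorem red_poly : NPC.Poly red := by
  have h1 := drawing_poly
  have h2 := sls_poly
  have h3 := nl_poly
  unfold red
  fun_prop

end Pool.Agent.Q227.SW
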