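import Pool.Agent.Q227.SW.Geo

/-!
# The drawing is regular
-/

set_option autoImplicit false

namespace Pool.Agent.Q227.SW

open Ed

section list

variable (p : ℕ) (fl : Bool → ℕ → ℕ → Bool)

/-- The short edges starting at the centre `(i, j)`. -/
def sh (i j : ℕ) : List Ed :=
  (if i < p ∧ j ≤ p then [E 0 i j] else []) ++ ((if i ≤ p ∧ j < p then [E 1 i j] else []) ++
  ((if i < p ∧ j < p ∧ fl true i j = true then [E 2 i j] else []) ++
  ((if i < p ∧ j < p ∧ fl false j i = true then [E 3 i j] else []) ++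
  ((if i < p ∧ j = 0 then [E 4 i j] else []) ++ (if i = 0 ∧ j < p then [E 5 i j] else [])))))

/-- The codes of the edges. -/
def codes : List Ed :=
  (List.range p).map V ++ ((List.range p).map H ++
    (List.range (p + 1)).flatMap fun i => (List.range (p + 1)).flatMap fun j => sh p fl i j)

/-- The drawing. -/
def drawing : List Seg := (codes p fl).map (seg p)

variable {p fl}

theorem mem_sh {i j : ℕ} {x : Ed} : x ∈ sh p fl i j ↔ ∃ k, x = E k i j ∧ Pres p fl (E k i j) := by
  unfold sh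
  simp only [List.mem_append, Pres]
  constructor
  · intro h
    rcases h with h | h | h | h | h | h
    · split_ifs at h with h1
      · rw [List.mem_singleton] at h; exact ⟨0, h, by simp [h1]⟩
      · exact absurd h (by simp)
    · split_ifs at h with h1
      · rw [List.mem_singleton] at h; exact ⟨1, h, by simp [h1]⟩
      · exact absurd h (by simp)
    · split_ifs at h with h1
      · rw [List.mem_singleton] at h; exact ⟨2, h, by simp [h1]⟩
      · exact absurd h (by simp)
    · split_ifs at h with h1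
      · rw [List.mem_singleton] at h; exact ⟨3, h, by simp [h1]⟩
      · exact absurd h (by simp)
    · split_ifs at h with h1
      · rw [List.mem_singleton] at h; exact ⟨4, h, by simp [h1]⟩
      · exact absurd h (by simp)
    · split_ifs at h with h1
      · rw [List.mem_singleton] at h; exact ⟨5, h, by simp [h1]⟩
      · exact absurd h (by simp)
  · rintro ⟨k, rfl, h⟩
    rcases h with ⟨rfl, h1, h2⟩ | ⟨rfl, h1, h2⟩ | ⟨rfl, h1, h2, h3⟩ | ⟨rfl, h1, h2, h3⟩ |
      ⟨rfl, h1, h2⟩ | ⟨rfl, h1, h2⟩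
    · left; rw [if_pos ⟨h1, h2⟩]; simp
    · right; left; rw [if_pos ⟨h1, h2⟩]; simp
    · right; right; left; rw [if_pos ⟨h1, h2, h3⟩]; simp
    · right; right; right; left; rw [if_pos ⟨h1, h2, h3⟩]; simp
    · right; right; right; right; left; rw [if_pos ⟨h1, h2⟩]; simp
    · right; right; right; right; right; rw [if_pos ⟨h1, h2⟩]; simp

theorem pres_le {k i j : ℕ} (h : Pres p fl (E k i j)) : i ≤ p ∧ j ≤ p := by
  simp only [Pres] at h
  rcases h with ⟨rfl, h1, h2⟩ | ⟨rfl, h1, h2⟩ | ⟨rfl, h1, h2, h3⟩ | ⟨rfl, h1, h2, h3⟩ |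
      ⟨rfl, h1, h2⟩ | ⟨rfl, h1, h2⟩ <;> omega

theorem mem_codes {x : Ed} : x ∈ codes p fl ↔ Pres p fl x := by
  unfold codes
  simp only [List.mem_append, List.mem_map, List.mem_range, List.mem_flatMap, mem_sh]
  constructor
  · rintro (⟨a, ha, rfl⟩ | ⟨a, ha, rfl⟩ | ⟨i, hi, j, hj, k, rfl, h⟩)
    · exact ha
    · exact ha
    · exact h
  · intro h
    cases x with
    | V a => exact Or.inl ⟨a, h, rfl⟩
    | H a => exact Or.inr (Or.inl ⟨a, h, rfl⟩)
    | E k i j =>
      have := pres_le h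
      exact Or.inr (Or.inr ⟨i, by omega, j, by omega, k, rfl, h⟩)

theorem nodup_codes : (codes p fl).Nodup := by
  unfold codes
  refine List.Nodup.append ?_ (List.Nodup.append ?_ ?_ ?_) ?_
  · exact List.Nodup.map (fun a b h => by simpa using h) List.nodup_range
  · exact List.Nodup.map (fun a b h => by simpa using h) List.nodup_range
  · rw [List.nodup_flatMap]
    constructor
    · intro i _
      rw [List.nodup_flatMap]
      constructor
      · intro j _
        unfold sh
        split_ifs <;> simp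
      · refine List.Nodup.pairwise_of_forall_ne List.nodup_range ?_
        intro j _ j' _ hne x hx hx'
        obtain ⟨k, rfl, _⟩ := mem_sh.1 hx
        obtain ⟨k', h, _⟩ := mem_sh.1 hx'
        exact hne (by injection h)
    · refine List.Nodup.pairwise_of_forall_ne List.nodup_range ?_
      intro i _ i' _ hne x hx hx'
      simp only [List.mem_flatMap] at hx hx'
      obtain ⟨j, _, hx⟩ := hx
      obtain ⟨j', _, hx'⟩ := hx'
      obtain ⟨k, rfl, _⟩ := mem_sh.1 hx
      obtain ⟨k', h, _⟩ := mem_sh.1 hx'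
      exact hne (by injection h)
  · intro x hx hx'
    simp only [List.mem_map, List.mem_flatMap] at hx hx'
    obtain ⟨a, _, rfl⟩ := hx
    obtain ⟨i, _, j, _, h⟩ := hx'
    obtain ⟨k, h, _⟩ := mem_sh.1 h
    cases h
  · intro x hx hx'
    simp only [List.mem_append, List.mem_map, List.mem_flatMap] at hx hx'
    obtain ⟨a, _, rfl⟩ := hx
    rcases hx' with ⟨b, _, h⟩ | ⟨i, _, j, _, h⟩
    · cases h
    · obtain ⟨k, h, _⟩ := mem_sh.1 h
      cases h

theorem mem_drawing {e : Seg} : e ∈ drawing p fl ↔ ∃ x, Pres p fl x ∧ seg p x = e := by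
  unfold drawing
  simp only [List.mem_map, mem_codes]

theorem seg_inj {x y : Ed} (hx : Pres p fl x) (hy : Pres p fl y) (h : seg p x = seg p y) :
    x = y := by
  cases x with
  | V a =>
    cases y with
    | V b => simp [seg] at h; simp [h]
    | H b => simp [seg] at h
    | E k i j => simp [seg] at h
  | H a =>
    cases y with
    | V b => simp [seg] at h
    | H b => simp [seg] at h; simp [h]
    | E k i j => simp [seg] at h
  | E k i j =>
    cases y with
    | V b => simp [seg] at h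
    | H b => simp [seg] at h
    | E k' i' j' =>
      simp only [seg, Prod.mk.injEq] at h
      obtain ⟨⟨h1, h2⟩, h3⟩ := h
      have e1 : i = i' := by omega
      have e2 : j = j' := by omega
      subst e1 e2
      have : k = k' := by
        simp only [Pres] at hx hy
        rcases hx with ⟨rfl, a1, a2⟩ | ⟨rfl, a1, a2⟩ | ⟨rfl, a1, a2, a3⟩ | ⟨rfl, a1, a2, a3⟩ |
          ⟨rfl, a1, a2⟩ | ⟨rfl, a1, a2⟩ <;>
        rcases hy with ⟨rfl, b1, b2⟩ | ⟨rfl, b1, b2⟩ | ⟨rfl, b1, b2, b3⟩ | ⟨rfl, b1, b2, b3⟩ |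
          ⟨rfl, b1, b2⟩ | ⟨rfl, b1, b2⟩ <;>
        simp [tip] at h3 ⊢
      rw [this]

end list

section reg

variable {p : ℕ} {fl : Bool → ℕ → ℕ → Bool}

/-- The crossings of a horizontal line. -/
theorem cross_H {a : ℕ} {y : Ed} {s : ℝ} (ha : a < p) (hy : Pres p fl y)
    (h : CrossAt (seg p (H a)) (seg p y) s) :
    OnV a (sw y) ∧ 3 * (4 * p + 2) * s = pos (sw y) := by
  have h1 := cross_flip h
  rw [← seg_sw (fl := fl) (x := H a) ha, ← seg_sw hy] at h1
  exact cross_V ha (pres_sw hy) h1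

theorem cross_H' {a : ℕ} {y : Ed} (ha : a < p) (hy : Pres p fl y) (hon : OnV a (sw y)) :
    CrossAt (seg p (H a)) (seg p y) (pos (sw y) / (3 * (4 * p + 2))) := by
  have h1 := cross_V' ha (pres_sw hy) hon
  rw [seg_sw hy] at h1
  exact cross_flip_iff.1 h1

/-- A short edge crosses only one line. -/
theorem cross_short {k i j : ℕ} {y : Ed} {s : ℝ} (hx : Pres p fl (E k i j)) (hy : Pres p fl y)
    (h : CrossAt (seg p (E k i j)) (seg p y) s) :
    ((k = 0 ∨ k = 2) ∧ y = V i) ∨ ((k = 1 ∨ k = 3) ∧ y = H j) := by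
  obtain ⟨t, h1⟩ := cross_symm h
  cases y with
  | V a =>
    obtain ⟨⟨h2, rfl⟩, _⟩ := cross_V hy hx h1
    exact Or.inl ⟨h2, rfl⟩
  | H a =>
    obtain ⟨h2, _⟩ := cross_H hy hx h1
    simp only [sw, OnV] at h2
    obtain ⟨h2, rfl⟩ := h2
    refine Or.inr ⟨?_, rfl⟩
    simp only [Pres] at hx
    rcases hx with ⟨rfl, a1, a2⟩ | ⟨rfl, a1, a2⟩ | ⟨rfl, a1, a2, a3⟩ | ⟨rfl, a1, a2, a3⟩ |
      ⟨rfl, a1, a2⟩ | ⟨rfl, a1, a2⟩ <;> simp at h2 ⊢
  | E k' i' j' => exact absurd h (cross_E hx hy)

theorem drawing_once {x y : Ed} (hx : Pres p fl x) (hy : Pres p fl y) {s s' : ℝ}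
    (h : CrossAt (seg p x) (seg p y) s) (h' : CrossAt (seg p x) (seg p y) s') : s = s' := by
  have hp : (0 : ℝ) < 3 * (4 * p + 2) := by positivity
  cases x with
  | V a =>
    have h1 := (cross_V hx hy h).2
    have h2 := (cross_V hx hy h').2
    rw [← h2] at h1
    exact mul_left_cancel₀ hp.ne' h1
  | H a =>
    have h1 := (cross_H hx hy h).2
    have h2 := (cross_H hx hy h').2
    rw [← h2] at h1
    exact mul_left_cancel₀ hp.ne' h1
  | E k i j =>
    have h1 := cross_short hx hy h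
    obtain ⟨_, _, _, t, _, _, h2⟩ := h
    obtain ⟨_, _, _, t', _, _, h3⟩ := h'
    rcases h1 with ⟨hk, rfl⟩ | ⟨hk, rfl⟩
    · rw [pt_E, pt_V, Prod.mk.injEq] at h2 h3
      have h4 : ((dir k).1 : ℝ) * s = (dir k).1 * s' := by linarith [h2.1, h3.1]
      have h5 : ((dir k).1 : ℝ) ≠ 0 := by
        rcases hk with rfl | rfl <;> simp [dir]
      exact mul_left_cancel₀ h5 h4
    · rw [pt_E, pt_H, Prod.mk.injEq] at h2 h3
      have h4 : ((dir k).2 : ℝ) * s = (dir k).2 * s' := by linarith [h2.2, h3.2]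
      have h5 : ((dir k).2 : ℝ) ≠ 0 := by
        rcases hk with rfl | rfl <;> simp [dir]
      exact mul_left_cancel₀ h5 h4

theorem pos_inj {a : ℕ} {x y : Ed} (hx : OnV a x) (hy : OnV a y) (h : pos x = pos y) :
    x = y := by
  cases x with
  | V b => exact absurd hx (by simp [OnV])
  | H b =>
    cases y with
    | V c => exact absurd hy (by simp [OnV])
    | H c => simp only [pos] at h; congr 1; omega
    | E k i j =>
      simp only [pos] at h
      split_ifs at h <;> omega
  | E k i j =>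
    obtain ⟨hk, rfl⟩ := hx
    cases y with
    | V c => exact absurd hy (by simp [OnV])
    | H c =>
      simp only [pos] at h
      split_ifs at h <;> omega
    | E k' i' j' =>
      obtain ⟨hk', rfl⟩ := hy
      simp only [pos] at h
      rcases hk with rfl | rfl <;> rcases hk' with rfl | rfl <;> simp at h ⊢ <;> omega

theorem drawing_triple {x y z : Ed} (hx : Pres p fl x) (hy : Pres p fl y) (hz : Pres p fl z)
    {s : ℝ} (h : CrossAt (seg p x) (seg p y) s) (h' : CrossAt (seg p x) (seg p z) s) :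
    y = z := by
  cases x with
  | V a =>
    have h1 := cross_V hx hy h
    have h2 := cross_V hx hz h'
    exact pos_inj h1.1 h2.1 (by exact_mod_cast h1.2.symm.trans h2.2)
  | H a =>
    have h1 := cross_H hx hy h
    have h2 := cross_H hx hz h'
    have h3 := pos_inj h1.1 h2.1 (by exact_mod_cast h1.2.symm.trans h2.2)
    rw [← sw_sw hy, h3, sw_sw hz]
  | E k i j =>
    rcases cross_short hx hy h with ⟨h1, rfl⟩ | ⟨h1, rfl⟩ <;>
    rcases cross_short hx hz h' with ⟨h2, rfl⟩ | ⟨h2, rfl⟩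
    · rfl
    · omega
    · omega
    · rfl

/-- The segments have a common endpoint. -/
def Share (e f : Seg) : Prop := e.1 = f.1 ∨ e.1 = f.2 ∨ e.2 = f.1 ∨ e.2 = f.2

theorem Share.symm {e f : Seg} (h : Share e f) : Share f e := by
  rcases h with h | h | h | h
  · exact Or.inl h.symm
  · exact Or.inr (Or.inr (Or.inl h.symm))
  · exact Or.inr (Or.inl h.symm)
  · exact Or.inr (Or.inr (Or.inr h.symm))

theorem Share.flip {e f : Seg} (h : Share e f) : Share (flip' e) (flip' f) := by
  unfold Share flip' at *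
  simp only [Prod.ext_iff] at h ⊢
  tauto

theorem drawing_adj_V {a : ℕ} {y : Ed} (hx : a < p) (hy : Pres p fl y)
    (hs : Share (seg p (V a)) (seg p y)) {s : ℝ} : ¬ CrossAt (seg p (V a)) (seg p y) s := by
  intro h
  have h1 := (cross_V hx hy h).1
  cases y with
  | V b => exact h1
  | H b =>
    unfold Share seg at hs
    simp only [Prod.mk.injEq] at hs
    omega
  | E k i j =>
    obtain ⟨hk, rfl⟩ := h1
    unfold Share seg at hs
    rcases hk with rfl | rfl <;> simp [tip] at hs <;> omega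

theorem drawing_adj_H {a : ℕ} {y : Ed} (hx : a < p) (hy : Pres p fl y)
    (hs : Share (seg p (H a)) (seg p y)) {s : ℝ} : ¬ CrossAt (seg p (H a)) (seg p y) s := by
  intro h
  have h1 := cross_flip h
  have h2 := hs.flip
  rw [← seg_sw (fl := fl) (x := H a) hx, ← seg_sw hy] at h1 h2
  exact drawing_adj_V hx (pres_sw hy) h2 h1

theorem drawing_adj {x y : Ed} (hx : Pres p fl x) (hy : Pres p fl y)
    (hs : Share (seg p x) (seg p y)) {s : ℝ} : ¬ CrossAt (seg p x) (seg p y) s := by
  intro h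
  cases x with
  | V a => exact drawing_adj_V hx hy hs h
  | H a => exact drawing_adj_H hx hy hs h
  | E k i j =>
    obtain ⟨t, h1⟩ := cross_symm h
    rcases cross_short hx hy h with ⟨_, rfl⟩ | ⟨_, rfl⟩
    · exact drawing_adj_V hy hx hs.symm h1
    · exact drawing_adj_H hy hx hs.symm h1

theorem pt_zero (f : Seg) : pt f 0 = ((f.1.1 : ℝ), (f.1.2 : ℝ)) := by
  unfold pt; simp

theorem pt_one (f : Seg) : pt f 1 = ((f.2.1 : ℝ), (f.2.2 : ℝ)) := by
  unfold pt; simp

/-- The endpoints. -/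
def IsEnd (f : Seg) (u : ℕ × ℕ) : Prop := u = f.1 ∨ u = f.2

theorem vertex_V {a : ℕ} {y : Ed} {u : ℕ × ℕ} (hy : Pres p fl y)
    (hu : IsEnd (seg p y) u) {s : ℝ} (h0 : 0 < s) (h1 : s < 1) :
    pt (seg p (V a)) s ≠ ((u.1 : ℝ), (u.2 : ℝ)) := by
  intro h
  rw [pt_V, Prod.mk.injEq] at h
  obtain ⟨h2, h3⟩ := h
  have h4 : 4 * a + 3 = u.1 := by exact_mod_cast h2
  have h5 : u.2 ≠ 0 := by
    intro h
    rw [h] at h3
    have : (0 : ℝ) < (4 * p + 2) * s := by positivity
    simp only [Nat.cast_zero] at h3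
    linarith
  have h6 : u.2 ≠ 4 * p + 2 := by
    intro h
    rw [h] at h3
    push_cast at h3
    have : (0 : ℝ) < 4 * p + 2 := by positivity
    nlinarith
  cases y with
  | V b =>
    rcases hu with rfl | rfl
    · exact h5 rfl
    · exact h6 rfl
  | H b => rcases hu with rfl | rfl <;> simp [seg] at h4 <;> omega
  | E k i j =>
    rcases hu with rfl | rfl
    · simp [seg] at h4; omega
    · simp only [Pres] at hy
      rcases hy with ⟨rfl, b1, b2⟩ | ⟨rfl, b1, b2⟩ | ⟨rfl, b1, b2, b3⟩ | ⟨rfl, b1, b2, b3⟩ |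
          ⟨rfl, b1, b2⟩ | ⟨rfl, b1, b2⟩ <;> simp [seg, tip] at h4 h5 h6 <;> omega

theorem vertex_H {a : ℕ} {y : Ed} {u : ℕ × ℕ} (hy : Pres p fl y)
    (hu : IsEnd (seg p y) u) {s : ℝ} (h0 : 0 < s) (h1 : s < 1) :
    pt (seg p (H a)) s ≠ ((u.1 : ℝ), (u.2 : ℝ)) := by
  intro h
  have h2 := vertex_V (a := a) (u := (u.2, u.1)) (pres_sw hy) (by
    rw [seg_sw hy]
    rcases hu with rfl | rfl
    · exact Or.inl rfl
    · exact Or.inr rfl) h0 h1
  apply h2
  rw [pt_H, Prod.mk.injEq] at h
  rw [pt_V, Prod.mk.injEq]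
  exact ⟨h.2, h.1⟩

theorem vertex_E {k i j : ℕ} {y : Ed} {u : ℕ × ℕ} (hx : Pres p fl (E k i j)) (hy : Pres p fl y)
    (hu : IsEnd (seg p y) u) {s : ℝ} (h0 : 0 < s) (h1 : s < 1) :
    pt (seg p (E k i j)) s ≠ ((u.1 : ℝ), (u.2 : ℝ)) := by
  intro h
  rw [pt_E, Prod.mk.injEq] at h
  obtain ⟨h2, h3⟩ := h
  obtain ⟨Z, hZ⟩ : ∃ Z : ℤ, Z = (u.1 : ℤ) - (4 * i + 1) := ⟨_, rfl⟩
  obtain ⟨W, hW⟩ : ∃ W : ℤ, W = (u.2 : ℤ) - (4 * j + 1) := ⟨_, rfl⟩
  have e1 : (Z : ℝ) = (dir k).1 * s := by rw [hZ]; push_cast; linarith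
  have e2 : (W : ℝ) = (dir k).2 * s := by rw [hW]; push_cast; linarith
  -- only `k = 0` and `k = 1` are possible
  have hk : (k = 0 ∧ 0 < Z ∧ Z < 4 ∧ W = 0) ∨ (k = 1 ∧ 0 < W ∧ W < 4 ∧ Z = 0) := by
    simp only [Pres] at hx
    rcases hx with ⟨rfl, a1, a2⟩ | ⟨rfl, a1, a2⟩ | ⟨rfl, a1, a2, a3⟩ | ⟨rfl, a1, a2, a3⟩ |
      ⟨rfl, a1, a2⟩ | ⟨rfl, a1, a2⟩
    · left
      simp [dir] at e1 e2
      have k1 : (0 : ℝ) < Z := by linarith
      have k2 : (Z : ℝ) < 4 := by linarith
      exact ⟨rfl, by exact_mod_cast k1, by exact_mod_cast k2, e2⟩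
    · right
      simp [dir] at e1 e2
      have k1 : (0 : ℝ) < W := by linarith
      have k2 : (W : ℝ) < 4 := by linarith
      exact ⟨rfl, by exact_mod_cast k1, by exact_mod_cast k2, e1⟩
    · exfalso
      simp [dir] at e2
      have k1 : (0 : ℝ) < W := by linarith
      have k2 : (W : ℝ) < 1 := by linarith
      have k3 : 0 < W := by exact_mod_cast k1
      have k4 : W < 1 := by exact_mod_cast k2
      omega
    · exfalso
      simp [dir] at e1
      have k1 : (0 : ℝ) < Z := by linarith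
      have k2 : (Z : ℝ) < 1 := by linarith
      have k3 : 0 < Z := by exact_mod_cast k1
      have k4 : Z < 1 := by exact_mod_cast k2
      omega
    · exfalso
      simp [dir] at e2
      have k1 : (-1 : ℝ) < W := by linarith
      have k2 : (W : ℝ) < 0 := by linarith
      have k3 : -1 < W := by exact_mod_cast k1
      have k4 : W < 0 := by exact_mod_cast k2
      omega
    · exfalso
      simp [dir] at e1
      have k1 : (-1 : ℝ) < Z := by linarith
      have k2 : (Z : ℝ) < 0 := by linarith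
      have k3 : -1 < Z := by exact_mod_cast k1
      have k4 : Z < 0 := by exact_mod_cast k2
      omega
  clear e1 e2 h2 h3 hx
  cases y with
  | V b => rcases hu with rfl | rfl <;> simp only [seg] at hZ hW <;> omega
  | H b => rcases hu with rfl | rfl <;> simp only [seg] at hZ hW <;> omega
  | E k' i' j' =>
    rcases hu with rfl | rfl
    · simp only [seg] at hZ hW
      omega
    · simp only [Pres] at hy
      rcases hy with ⟨rfl, b1, b2⟩ | ⟨rfl, b1, b2⟩ | ⟨rfl, b1, b2, b3⟩ | ⟨rfl, b1, b2, b3⟩ |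
          ⟨rfl, b1, b2⟩ | ⟨rfl, b1, b2⟩ <;> simp [seg, tip] at hZ hW <;> omega

theorem drawing_vertex {x y : Ed} (hx : Pres p fl x) (hy : Pres p fl y) {s : ℝ} (h0 : 0 < s)
    (h1 : s < 1) : pt (seg p x) s ≠ pt (seg p y) 0 ∧ pt (seg p x) s ≠ pt (seg p y) 1 := by
  rw [pt_zero, pt_one]
  have key : ∀ u, IsEnd (seg p y) u → pt (seg p x) s ≠ ((u.1 : ℝ), (u.2 : ℝ)) := by
    intro u hu
    cases x with
    | V a => exact vertex_V hy hu h0 h1
    | H a => exact vertex_H hy hu h0 h1
    | E k i j => exact vertex_E hx hy hu h0 h1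
  exact ⟨key _ (Or.inl rfl), key _ (Or.inr rfl)⟩

theorem drawing_simple {x y : Ed} (hx : Pres p fl x) (hy : Pres p fl y) :
    (seg p x).1 ≠ (seg p x).2 ∧ seg p y ≠ ((seg p x).2, (seg p x).1) := by
  cases x with
  | V a =>
    refine ⟨by simp [seg], ?_⟩
    cases y with
    | V b => simp [seg]
    | H b => simp [seg]
    | E k i j => simp [seg]; omega
  | H a =>
    refine ⟨by simp [seg], ?_⟩
    cases y with
    | V b => simp [seg]
    | H b => simp [seg]
    | E k i j => simp [seg]; omega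
  | E k i j =>
    simp only [Pres] at hx
    rcases hx with ⟨rfl, a1, a2⟩ | ⟨rfl, a1, a2⟩ | ⟨rfl, a1, a2, a3⟩ | ⟨rfl, a1, a2, a3⟩ |
      ⟨rfl, a1, a2⟩ | ⟨rfl, a1, a2⟩ <;>
    (refine ⟨by simp [seg, tip], ?_⟩
     cases y with
     | V b => simp [seg, tip] <;> omega
     | H b => simp [seg, tip] <;> omega
     | E k' i' j' =>
       simp only [Pres] at hy
       rcases hy with ⟨rfl, b1, b2⟩ | ⟨rfl, b1, b2⟩ | ⟨rfl, b1, b2, b3⟩ | ⟨rfl, b1, b2, b3⟩ |
         ⟨rfl, b1, b2⟩ | ⟨rfl, b1, b2⟩ <;> simp [seg, tip] <;> omega)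

theorem joined_symm {Γ : List Seg} {x y : ℕ × ℕ} (h : Joined Γ x y) : Joined Γ y x :=
  h.symm

theorem reach_symm {Γ : List Seg} {x y : ℕ × ℕ} (h : Relation.ReflTransGen (Joined Γ) x y) :
    Relation.ReflTransGen (Joined Γ) y x := by
  induction h with
  | refl => exact Relation.ReflTransGen.refl
  | tail _ h2 ih => exact Relation.ReflTransGen.head (joined_symm h2) ih

theorem joined_of {x : Ed} (hx : Pres p fl x) :
    Joined (drawing p fl) (seg p x).1 (seg p x).2 := Or.inl (mem_drawing.2 ⟨x, hx, rfl⟩)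

theorem centre_conn (j : ℕ) (hj : j ≤ p) : ∀ i, i ≤ p →
    Relation.ReflTransGen (Joined (drawing p fl)) (1, 1) (4 * i + 1, 4 * j + 1) := by
  have h0 : ∀ j, j ≤ p → Relation.ReflTransGen (Joined (drawing p fl)) (1, 1)
      (4 * 0 + 1, 4 * j + 1) := by
    intro j
    induction j with
    | zero => intro _; exact Relation.ReflTransGen.refl
    | succ j ih =>
      intro hj
      refine (ih (by omega)).tail ?_
      have := joined_of (p := p) (fl := fl) (x := E 1 0 j)
        (Or.inr (Or.inl ⟨rfl, by omega, by omega⟩))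
      simpa [seg, tip, mul_add] using this
  intro i
  induction i with
  | zero => intro _; exact h0 j hj
  | succ i ih =>
    intro hi
    refine (ih (by omega)).tail ?_
    have := joined_of (p := p) (fl := fl) (x := E 0 i j) (Or.inl ⟨rfl, by omega, by omega⟩)
    simpa [seg, tip, mul_add] using this

theorem vertex_conn {u : ℕ × ℕ} (hu : IsVertex (drawing p fl) u) :
    Relation.ReflTransGen (Joined (drawing p fl)) (1, 1) u := by
  obtain ⟨e, he, hu⟩ := hu
  obtain ⟨x, hx, rfl⟩ := mem_drawing.1 he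
  have key : Relation.ReflTransGen (Joined (drawing p fl)) (1, 1) (seg p x).1 := by
    cases x with
    | V a =>
      have h1 := centre_conn (p := p) (fl := fl) 0 (by omega) a (le_of_lt hx)
      refine h1.tail ?_
      have := joined_of (p := p) (fl := fl) (x := E 4 a 0)
        (Or.inr (Or.inr (Or.inr (Or.inr (Or.inl ⟨rfl, hx, rfl⟩)))))
      simpa [seg, tip] using this
    | H a =>
      have h1 := centre_conn (p := p) (fl := fl) a (le_of_lt hx) 0 (by omega)
      refine h1.tail ?_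
      have := joined_of (p := p) (fl := fl) (x := E 5 0 a)
        (Or.inr (Or.inr (Or.inr (Or.inr (Or.inr ⟨rfl, rfl, hx⟩)))))
      simpa [seg, tip] using this
    | E k i j =>
      have := pres_le hx
      exact centre_conn j this.2 i this.1
  rcases hu with rfl | rfl
  · exact key
  · exact key.tail (joined_of hx)

theorem drawing_regular (p : ℕ) (fl : Bool → ℕ → ℕ → Bool) : Regular (drawing p fl) where
  nodup := by
    unfold drawing
    refine List.Nodup.map_on ?_ nodup_codes
    intro x hx y hy h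
    exact seg_inj (mem_codes.1 hx) (mem_codes.1 hy) h
  simple := by
    intro e he
    obtain ⟨x, hx, rfl⟩ := mem_drawing.1 he
    refine ⟨(drawing_simple hx hx).1, ?_⟩
    intro hc
    obtain ⟨y, hy, h⟩ := mem_drawing.1 hc
    exact (drawing_simple hx hy).2 h
  vertex := by
    intro e he f hf s h0 h1
    obtain ⟨x, hx, rfl⟩ := mem_drawing.1 he
    obtain ⟨y, hy, rfl⟩ := mem_drawing.1 hf
    exact drawing_vertex hx hy h0 h1
  once := by
    intro e he f hf s s' h h'
    obtain ⟨x, hx, rfl⟩ := mem_drawing.1 he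
    obtain ⟨y, hy, rfl⟩ := mem_drawing.1 hf
    exact drawing_once hx hy h h'
  adjacent := by
    intro e he f hf hs s
    obtain ⟨x, hx, rfl⟩ := mem_drawing.1 he
    obtain ⟨y, hy, rfl⟩ := mem_drawing.1 hf
    exact drawing_adj hx hy hs
  triple := by
    intro e he f hf g hg s h h'
    obtain ⟨x, hx, rfl⟩ := mem_drawing.1 he
    obtain ⟨y, hy, rfl⟩ := mem_drawing.1 hf
    obtain ⟨z, hz, rfl⟩ := mem_drawing.1 hg
    rw [drawing_triple hx hy hz h h']
  connected := by
    intro x y hx hy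
    exact (reach_symm (vertex_conn hx)).trans (vertex_conn hy)

end reg

end Pool.Agent.Q227.SW
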