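import Pool.Agent.Q227.SW.Reg

/-!
# Consecutive crossings of the drawing, and the number of switches
-/

set_option autoImplicit false

namespace Pool.Agent.Q227.SW

open Ed Finset

/-- The line number `a` of one of the two directions. -/
def line : Bool → ℕ → Ed
  | true => V
  | false => H

/-- The edges of the dual grid which cross a line. -/
def ax : Bool → ℕ → ℕ → Ed
  | true, a, j => E 0 a j
  | false, a, j => E 1 j a

/-- The pendant edges which cross a line. -/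
def pe : Bool → ℕ → ℕ → Ed
  | true, a, j => E 2 a j
  | false, a, j => E 3 j a

section next

variable {p : ℕ} {fl : Bool → ℕ → ℕ → Bool}

/-- `y` and `z` are consecutive on the vertical line `a`. -/
def NextV (p : ℕ) (fl : Bool → ℕ → ℕ → Bool) (a : ℕ) (y z : Ed) : Prop :=
  Pres p fl y ∧ Pres p fl z ∧ OnV a y ∧ OnV a z ∧ pos y < pos z ∧
    ∀ w, Pres p fl w → OnV a w → ¬ (pos y < pos w ∧ pos w < pos z)

theorem onV_cases {a : ℕ} {y : Ed} (hy : Pres p fl y) (h : OnV a y) :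
    (∃ b, b < p ∧ y = H b) ∨ (∃ j, j ≤ p ∧ y = E 0 a j) ∨
      ∃ j, j < p ∧ fl true a j = true ∧ y = E 2 a j := by
  cases y with
  | V b => exact absurd h (by simp [OnV])
  | H b => exact Or.inl ⟨b, hy, rfl⟩
  | E k i j =>
    obtain ⟨hk, rfl⟩ := h
    simp only [Pres] at hy
    rcases hk with rfl | rfl
    · right; left
      refine ⟨j, ?_, rfl⟩
      omega
    · right; right
      rcases hy with ⟨g, _⟩ | ⟨g, _⟩ | ⟨_, g1, g2, g3⟩ | ⟨g, _⟩ | ⟨g, _⟩ | ⟨g, _⟩ <;>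
        first | omega | exact ⟨j, g2, g3, rfl⟩

theorem pres_ax {a j : ℕ} (ha : a < p) (hj : j ≤ p) : Pres p fl (E 0 a j) :=
  Or.inl ⟨rfl, ha, hj⟩

theorem pres_pe {a j : ℕ} (ha : a < p) (hj : j < p) (hf : fl true a j = true) :
    Pres p fl (E 2 a j) := Or.inr (Or.inr (Or.inl ⟨rfl, ha, hj, hf⟩))

theorem nextV_iff {a : ℕ} (ha : a < p) {y z : Ed} : NextV p fl a y z ↔
    ∃ j, j < p ∧ ((y = E 0 a j ∧ z = if fl true a j = true then E 2 a j else H j) ∨
      (fl true a j = true ∧ y = E 2 a j ∧ z = H j) ∨ (y = H j ∧ z = E 0 a (j + 1))) := by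
  constructor
  · rintro ⟨hy, hz, h1, h2, h3, h4⟩
    rcases onV_cases hy h1 with ⟨b, hb, rfl⟩ | ⟨j, hj, rfl⟩ | ⟨j, hj, hf, rfl⟩
    · refine ⟨b, hb, Or.inr (Or.inr ⟨rfl, ?_⟩)⟩
      have h5 := h4 (E 0 a (b + 1)) (pres_ax ha (by omega)) ⟨Or.inl rfl, rfl⟩
      rcases onV_cases hz h2 with ⟨c, hc, rfl⟩ | ⟨j, hj, rfl⟩ | ⟨j, hj, hf, rfl⟩ <;>
        simp [pos] at h3 h5 ⊢ <;> omega
    · rcases Nat.lt_or_ge j p with hjp | hjp
      · refine ⟨j, hjp, Or.inl ⟨rfl, ?_⟩⟩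
        have h5 := h4 (H j) hjp trivial
        split_ifs with hfl
        · have h6 := h4 (E 2 a j) (pres_pe ha hjp hfl) ⟨Or.inr rfl, rfl⟩
          rcases onV_cases hz h2 with ⟨c, hc, rfl⟩ | ⟨j', hj', rfl⟩ | ⟨j', hj', hf', rfl⟩ <;>
            simp [pos] at h3 h5 h6 ⊢ <;> omega
        · rcases onV_cases hz h2 with ⟨c, hc, rfl⟩ | ⟨j', hj', rfl⟩ | ⟨j', hj', hf', rfl⟩
          · simp [pos] at h3 h5 ⊢; omega
          · simp [pos] at h3 h5 ⊢; omega
          · simp [pos] at h3 h5 ⊢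
            have : j' = j := by omega
            subst this
            exact hfl hf'
      · exfalso
        rcases onV_cases hz h2 with ⟨c, hc, rfl⟩ | ⟨j', hj', rfl⟩ | ⟨j', hj', hf', rfl⟩ <;>
          simp [pos] at h3 <;> omega
    · refine ⟨j, hj, Or.inr (Or.inl ⟨hf, rfl, ?_⟩)⟩
      have h5 := h4 (H j) hj trivial
      rcases onV_cases hz h2 with ⟨c, hc, rfl⟩ | ⟨j', hj', rfl⟩ | ⟨j', hj', hf', rfl⟩ <;>
        simp [pos] at h3 h5 ⊢ <;> omega
  · rintro ⟨j, hj, ⟨rfl, rfl⟩ | ⟨hf, rfl, rfl⟩ | ⟨rfl, rfl⟩⟩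
    · split_ifs with hfl
      · refine ⟨pres_ax ha hj.le, pres_pe ha hj hfl, ⟨Or.inl rfl, rfl⟩, ⟨Or.inr rfl, rfl⟩, ?_, ?_⟩
        · simp [pos]
        · intro w hw hw'
          rcases onV_cases hw hw' with ⟨c, hc, rfl⟩ | ⟨j', hj', rfl⟩ | ⟨j', hj', hf', rfl⟩ <;>
            simp [pos] <;> omega
      · refine ⟨pres_ax ha hj.le, hj, ⟨Or.inl rfl, rfl⟩, trivial, ?_, ?_⟩
        · simp [pos]
        · intro w hw hw'
          rcases onV_cases hw hw' with ⟨c, hc, rfl⟩ | ⟨j', hj', rfl⟩ | ⟨j', hj', hf', rfl⟩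
          · simp [pos]; omega
          · simp [pos]; omega
          · simp only [pos, if_true]
            rintro ⟨g1, g2⟩
            simp at g1 g2
            have : j' = j := by omega
            subst this
            exact hfl hf'
    · refine ⟨pres_pe ha hj hf, hj, ⟨Or.inr rfl, rfl⟩, trivial, ?_, ?_⟩
      · simp [pos]
      · intro w hw hw'
        rcases onV_cases hw hw' with ⟨c, hc, rfl⟩ | ⟨j', hj', rfl⟩ | ⟨j', hj', hf', rfl⟩ <;>
          simp [pos] <;> omega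
    · refine ⟨hj, pres_ax ha hj, trivial, ⟨Or.inl rfl, rfl⟩, ?_, ?_⟩
      · simp [pos]; omega
      · intro w hw hw'
        rcases onV_cases hw hw' with ⟨c, hc, rfl⟩ | ⟨j', hj', rfl⟩ | ⟨j', hj', hf', rfl⟩ <;>
          simp [pos] <;> omega

theorem consec_V {a : ℕ} (ha : a < p) {y z : Ed} (hy : Pres p fl y) (hz : Pres p fl z) :
    Consec (drawing p fl) (seg p (V a)) (seg p y) (seg p z) ↔ NextV p fl a y z := by
  have hp : (0 : ℝ) < 3 * (4 * p + 2) := by positivity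
  constructor
  · rintro ⟨_, _, _, s, s', hlt, h1, h2, h3⟩
    have h4 := cross_V ha hy h1
    have h5 := cross_V ha hz h2
    refine ⟨hy, hz, h4.1, h5.1, ?_, ?_⟩
    · have : (pos y : ℝ) < pos z := by
        rw [← h4.2, ← h5.2]
        exact mul_lt_mul_of_pos_left hlt hp
      exact_mod_cast this
    · rintro w hw hw' ⟨g1, g2⟩
      have h6 := h3 _ (mem_drawing.2 ⟨w, hw, rfl⟩) _ (cross_V' ha hw hw')
      apply h6
      constructor
      · rw [lt_div_iff₀ hp, mul_comm, h4.2]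
        exact_mod_cast g1
      · rw [div_lt_iff₀ hp, mul_comm s', h5.2]
        exact_mod_cast g2
  · rintro ⟨_, _, h1, h2, h3, h4⟩
    refine ⟨mem_drawing.2 ⟨V a, ha, rfl⟩, mem_drawing.2 ⟨y, hy, rfl⟩, mem_drawing.2 ⟨z, hz, rfl⟩,
      _, _, ?_, cross_V' ha hy h1, cross_V' ha hz h2, ?_⟩
    · rw [div_lt_div_iff_of_pos_right hp]
      exact_mod_cast h3
    · intro e he r hr
      obtain ⟨w, hw, rfl⟩ := mem_drawing.1 he
      have h5 := cross_V ha hw hr
      rintro ⟨g1, g2⟩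
      refine h4 w hw h5.1 ⟨?_, ?_⟩
      · rw [div_lt_iff₀ hp, mul_comm, h5.2] at g1
        exact_mod_cast g1
      · rw [lt_div_iff₀ hp, mul_comm, h5.2] at g2
        exact_mod_cast g2

theorem consec_H {a : ℕ} (ha : a < p) {y z : Ed} (hy : Pres p fl y) (hz : Pres p fl z) :
    Consec (drawing p fl) (seg p (H a)) (seg p y) (seg p z) ↔
      NextV p (fun o => fl (!o)) a (sw y) (sw z) := by
  have hp : (0 : ℝ) < 3 * (4 * p + 2) := by positivity
  constructor
  · rintro ⟨_, _, _, s, s', hlt, h1, h2, h3⟩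
    have h4 := cross_H ha hy h1
    have h5 := cross_H ha hz h2
    refine ⟨pres_sw hy, pres_sw hz, h4.1, h5.1, ?_, ?_⟩
    · have : (pos (sw y) : ℝ) < pos (sw z) := by
        rw [← h4.2, ← h5.2]
        exact mul_lt_mul_of_pos_left hlt hp
      exact_mod_cast this
    · rintro w hw hw' ⟨g1, g2⟩
      have hw2 : Pres p fl (sw w) := by simpa using pres_sw hw
      have hw3 : sw (sw w) = w := sw_sw hw
      have h6 := h3 _ (mem_drawing.2 ⟨sw w, hw2, rfl⟩) _ (cross_H' ha hw2 (by rwa [hw3]))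
      apply h6
      rw [hw3]
      constructor
      · rw [lt_div_iff₀ hp, mul_comm, h4.2]
        exact_mod_cast g1
      · rw [div_lt_iff₀ hp, mul_comm s', h5.2]
        exact_mod_cast g2
  · rintro ⟨_, _, h1, h2, h3, h4⟩
    refine ⟨mem_drawing.2 ⟨H a, ha, rfl⟩, mem_drawing.2 ⟨y, hy, rfl⟩, mem_drawing.2 ⟨z, hz, rfl⟩,
      _, _, ?_, cross_H' ha hy h1, cross_H' ha hz h2, ?_⟩
    · rw [div_lt_div_iff_of_pos_right hp]
      exact_mod_cast h3
    · intro e he r hr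
      obtain ⟨w, hw, rfl⟩ := mem_drawing.1 he
      have h5 := cross_H ha hw hr
      rintro ⟨g1, g2⟩
      refine h4 (sw w) (pres_sw hw) h5.1 ⟨?_, ?_⟩
      · rw [div_lt_iff₀ hp, mul_comm, h5.2] at g1
        exact_mod_cast g1
      · rw [lt_div_iff₀ hp, mul_comm, h5.2] at g2
        exact_mod_cast g2

/-- The slots: the edge, and two consecutive crossings. -/
def tri (fl : Bool → ℕ → ℕ → Bool) (o : Bool) (a j r : ℕ) : Ed × Ed × Ed :=
  (line o a, if r = 0 then (ax o a j, if fl o a j = true then pe o a j else line (!o) j)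
    else if r = 1 then (pe o a j, line (!o) j) else (line (!o) j, ax o a (j + 1)))

theorem sw_line (o : Bool) (a : ℕ) : sw (line o a) = line (!o) a := by cases o <;> rfl
theorem sw_ax (o : Bool) (a j : ℕ) : sw (ax o a j) = ax (!o) a j := by cases o <;> rfl
theorem sw_pe (o : Bool) (a j : ℕ) : sw (pe o a j) = pe (!o) a j := by cases o <;> rfl

theorem nextV_tri {a : ℕ} (ha : a < p) {y z : Ed} : NextV p fl a y z ↔
    ∃ j r, j < p ∧ r < 3 ∧ (r = 1 → fl true a j = true) ∧ (y, z) = (tri fl true a j r).2 := by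
  rw [nextV_iff ha]
  constructor
  · rintro ⟨j, hj, ⟨rfl, rfl⟩ | ⟨hf, rfl, rfl⟩ | ⟨rfl, rfl⟩⟩
    · exact ⟨j, 0, hj, by omega, by omega, rfl⟩
    · exact ⟨j, 1, hj, by omega, fun _ => hf, rfl⟩
    · exact ⟨j, 2, hj, by omega, by omega, rfl⟩
  · rintro ⟨j, r, hj, hr, hf, h⟩
    refine ⟨j, hj, ?_⟩
    have : r = 0 ∨ r = 1 ∨ r = 2 := by omega
    rcases this with rfl | rfl | rfl
    · left
      exact Prod.mk.inj h
    · right; left
      exact ⟨hf rfl, Prod.mk.inj h⟩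
    · right; right
      exact Prod.mk.inj h

theorem pres_tri (hfl : True) {o : Bool} {a j r : ℕ} (ha : a < p) (hj : j < p)
    (hf : r = 1 → fl o a j = true) :
    Pres p fl (tri fl o a j r).1 ∧ Pres p fl (tri fl o a j r).2.1 ∧
      Pres p fl (tri fl o a j r).2.2 := by
  unfold tri
  cases o
  · refine ⟨ha, ?_⟩
    simp only
    split_ifs with h1 h2 h3
    · exact ⟨Or.inr (Or.inl ⟨rfl, by omega, ha⟩),
        Or.inr (Or.inr (Or.inr (Or.inl ⟨rfl, hj, ha, h2⟩)))⟩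
    · exact ⟨Or.inr (Or.inl ⟨rfl, by omega, ha⟩), hj⟩
    · exact ⟨Or.inr (Or.inr (Or.inr (Or.inl ⟨rfl, hj, ha, hf h3⟩))), hj⟩
    · exact ⟨hj, Or.inr (Or.inl ⟨rfl, by omega, ha⟩)⟩
  · refine ⟨ha, ?_⟩
    simp only
    split_ifs with h1 h2 h3
    · exact ⟨Or.inl ⟨rfl, ha, by omega⟩, Or.inr (Or.inr (Or.inl ⟨rfl, ha, hj, h2⟩))⟩
    · exact ⟨Or.inl ⟨rfl, ha, by omega⟩, hj⟩
    · exact ⟨Or.inr (Or.inr (Or.inl ⟨rfl, ha, hj, hf h3⟩)), hj⟩
    · exact ⟨hj, Or.inl ⟨rfl, ha, by omega⟩⟩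

theorem sw_tri (o : Bool) (a j r : ℕ) :
    (sw (tri fl o a j r).2.1, sw (tri fl o a j r).2.2) =
      (tri (fun o => fl (!o)) (!o) a j r).2 := by
  unfold tri
  simp only [Bool.not_not]
  split_ifs <;> simp [sw_line, sw_ax, sw_pe]

/-- All consecutive crossings. -/
theorem consec_iff {e f g : Seg} : Consec (drawing p fl) e f g ↔
    ∃ o a j r, a < p ∧ j < p ∧ r < 3 ∧ (r = 1 → fl o a j = true) ∧
      e = seg p (tri fl o a j r).1 ∧ f = seg p (tri fl o a j r).2.1 ∧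
      g = seg p (tri fl o a j r).2.2 := by
  constructor
  · intro h
    obtain ⟨he, hf, hg, s, s', hlt, h1, h2, h3⟩ := id h
    obtain ⟨x, hx, rfl⟩ := mem_drawing.1 he
    obtain ⟨y, hy, rfl⟩ := mem_drawing.1 hf
    obtain ⟨z, hz, rfl⟩ := mem_drawing.1 hg
    cases x with
    | V a =>
      rw [consec_V hx hy hz, nextV_tri hx] at h
      obtain ⟨j, r, hj, hr, hf, h⟩ := h
      obtain ⟨e1, e2⟩ := Prod.mk.inj (h.trans (Prod.mk.eta).symm)
      exact ⟨true, a, j, r, hx, hj, hr, hf, rfl, by rw [e1], by rw [e2]⟩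
    | H a =>
      rw [consec_H hx hy hz, nextV_tri hx] at h
      obtain ⟨j, r, hj, hr, hf, h⟩ := h
      have e0 := sw_tri (fl := fl) false a j r
      simp only [Bool.not_false] at e0
      rw [← e0] at h
      obtain ⟨e1, e2⟩ := Prod.mk.inj h
      obtain ⟨q1, q2, q3⟩ := pres_tri (fl := fl) trivial (o := false) hx hj hf
      have e3 : y = (tri fl false a j r).2.1 := by rw [← sw_sw hy, e1, sw_sw q2]
      have e4 : z = (tri fl false a j r).2.2 := by rw [← sw_sw hz, e2, sw_sw q3]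
      exact ⟨false, a, j, r, hx, hj, hr, hf, rfl, by rw [e3], by rw [e4]⟩
    | E k i j =>
      exfalso
      have h4 := cross_short hx hy h1
      have h5 := cross_short hx hz h2
      have h6 : y = z := by
        rcases h4 with ⟨h4, rfl⟩ | ⟨h4, rfl⟩ <;> rcases h5 with ⟨h5, rfl⟩ | ⟨h5, rfl⟩
        · rfl
        · omega
        · omega
        · rfl
      subst h6
      have := drawing_once hx hy h1 h2
      linarith
  · rintro ⟨o, a, j, r, ha, hj, hr, hf, rfl, rfl, rfl⟩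
    obtain ⟨q1, q2, q3⟩ := pres_tri (fl := fl) trivial ha hj hf
    cases o
    · have : (tri fl false a j r).1 = H a := rfl
      rw [this, consec_H ha q2 q3, nextV_tri ha]
      refine ⟨j, r, hj, hr, hf, ?_⟩
      have e0 := sw_tri (fl := fl) false a j r
      simp only [Bool.not_false] at e0
      exact e0
    · have : (tri fl true a j r).1 = V a := rfl
      rw [this, consec_V ha q2 q3, nextV_tri ha]
      exact ⟨j, r, hj, hr, hf, rfl⟩

theorem tri_inj {o o' : Bool} {a a' j j' r r' : ℕ} (hr : r < 3) (hr' : r' < 3)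
    (h : tri fl o a j r = tri fl o' a' j' r') : o = o' ∧ a = a' ∧ j = j' ∧ r = r' := by
  unfold tri at h
  rw [Prod.mk.injEq] at h
  obtain ⟨h1, h2⟩ := h
  have ho : o = o' ∧ a = a' := by
    cases o <;> cases o' <;> simp [line] at h1 ⊢ <;> exact h1
  obtain ⟨rfl, rfl⟩ := ho
  refine ⟨rfl, rfl, ?_⟩
  have c1 : r = 0 ∨ r = 1 ∨ r = 2 := by omega
  have c2 : r' = 0 ∨ r' = 1 ∨ r' = 2 := by omega
  rcases c1 with rfl | rfl | rfl <;> rcases c2 with rfl | rfl | rfl <;> cases o <;>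
    simp [ax, pe, line] at h2 ⊢ <;> first | exact h2.1 | omega | exact h2

open Classical in
/-- The number of switches as a sum over the slots. -/
theorem switches_eq (σ : Seg → ℕ) : switches (drawing p fl) σ =
    ∑ o : Bool, ∑ a ∈ range p, ∑ j ∈ range p, ∑ r ∈ range 3,
      if (r = 1 → fl o a j = true) ∧ Between σ (seg p (tri fl o a j r).1)
        (seg p (tri fl o a j r).2.1) (seg p (tri fl o a j r).2.2) then 1 else 0 := by
  classical
  set S : Finset (Bool × ℕ × ℕ × ℕ) := ((univ : Finset Bool) ×ˢ (range p ×ˢ (range p ×ˢ range 3)))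
    with hS
  set q : Bool × ℕ × ℕ × ℕ → Prop := fun x =>
    (x.2.2.2 = 1 → fl x.1 x.2.1 x.2.2.1 = true) ∧
      Between σ (seg p (tri fl x.1 x.2.1 x.2.2.1 x.2.2.2).1)
        (seg p (tri fl x.1 x.2.1 x.2.2.1 x.2.2.2).2.1)
        (seg p (tri fl x.1 x.2.1 x.2.2.1 x.2.2.2).2.2) with hq
  set g : Bool × ℕ × ℕ × ℕ → Seg × Seg × Seg := fun x =>
    (seg p (tri fl x.1 x.2.1 x.2.2.1 x.2.2.2).1, seg p (tri fl x.1 x.2.1 x.2.2.1 x.2.2.2).2.1,
      seg p (tri fl x.1 x.2.1 x.2.2.1 x.2.2.2).2.2) with hg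
  have h1 : {x : Seg × Seg × Seg | Consec (drawing p fl) x.1 x.2.1 x.2.2 ∧
      Between σ x.1 x.2.1 x.2.2} = g '' (↑(S.filter q) : Set (Bool × ℕ × ℕ × ℕ)) := by
    ext ⟨e, f, e'⟩
    simp only [Set.mem_ofPred_eq, Set.mem_image, Finset.mem_coe, Finset.mem_filter, hS,
      Finset.mem_product, Finset.mem_univ, Finset.mem_range, true_and, consec_iff, Prod.exists]
    constructor
    · rintro ⟨⟨o, a, j, r, ha, hj, hr, hf, rfl, rfl, rfl⟩, hb⟩
      exact ⟨o, a, j, r, ⟨⟨ha, hj, hr⟩, hf, hb⟩, rfl⟩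
    · rintro ⟨o, a, j, r, ⟨⟨ha, hj, hr⟩, hf, hb⟩, h⟩
      simp only [hg, Prod.mk.injEq] at h
      obtain ⟨rfl, rfl, rfl⟩ := h
      exact ⟨⟨o, a, j, r, ha, hj, hr, hf, rfl, rfl, rfl⟩, hb⟩
  have h2 : Set.InjOn g (↑(S.filter q) : Set (Bool × ℕ × ℕ × ℕ)) := by
    rintro ⟨o, a, j, r⟩ hx ⟨o', a', j', r'⟩ hx' hgg
    simp only [Finset.mem_coe, Finset.mem_filter, hS, Finset.mem_product, Finset.mem_univ,
      Finset.mem_range, true_and, hq] at hx hx'
    simp only [hg, Prod.mk.injEq] at hgg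
    obtain ⟨q1, q2, q3⟩ := pres_tri (fl := fl) trivial hx.1.1 hx.1.2.1 hx.2.1
    obtain ⟨q1', q2', q3'⟩ := pres_tri (fl := fl) trivial hx'.1.1 hx'.1.2.1 hx'.2.1
    have e1 := seg_inj q1 q1' hgg.1
    have e2 := seg_inj q2 q2' hgg.2.1
    have e3 := seg_inj q3 q3' hgg.2.2
    obtain ⟨rfl, rfl, rfl, rfl⟩ := tri_inj hx.1.2.2 hx'.1.2.2 (Prod.ext e1 (Prod.ext e2 e3))
    rfl
  unfold switches
  rw [h1, Set.ncard_image_of_injOn h2, Set.ncard_coe_finset, Finset.card_filter, hS,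
    Finset.sum_product]
  refine Finset.sum_congr rfl fun o _ => ?_
  rw [Finset.sum_product]
  refine Finset.sum_congr rfl fun a _ => ?_
  rw [Finset.sum_product]

end next

end Pool.Agent.Q227.SW
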